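import Pool.Agent.Lib.MP_b0c2b5_co.LS.Defs

/-! Top sets and refinements. -/

set_option autoImplicit false

namespace Pool.Agent.Lib.MP_b0c2b5_co.LS

universe u

variable {V : Type u} {r lt : V → V → Prop}

/-- the `t` largest elements of a finite set. PROOF: induction on `t`: if `t ≥ S.card` take `S`; otherwise add an element of
`S \ Z` with the largest value of `x` (`Finset.exists_max_image`). -/
theorem top_set (S : Finset V) (x : V → ℕ) (t : ℕ) :
    ∃ Z : Finset V, Z ⊆ S ∧ Z.card = min t S.card ∧ ∀ z ∈ Z, ∀ w ∈ S, w ∉ Z → x w ≤ x z := by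
  classical
  induction t with
  | zero =>
    exact ⟨∅, Finset.empty_subset _, by simp, fun z hz => absurd hz (Finset.notMem_empty z)⟩
  | succ t ih =>
    obtain ⟨Z, hZS, hZc, hZ⟩ := ih
    rcases Nat.lt_or_ge t S.card with ht | ht
    · have hne : (S \ Z).Nonempty := by
        rw [Finset.nonempty_iff_ne_empty]
        intro he
        have h1 := Finset.card_sdiff_add_card_eq_card hZS
        rw [he, Finset.card_empty] at h1
        omega
      obtain ⟨z0, hz0, hmax⟩ := Finset.exists_max_image (S \ Z) x hne
      rw [Finset.mem_sdiff] at hz0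
      refine ⟨insert z0 Z, Finset.insert_subset hz0.1 hZS, ?_, ?_⟩
      · rw [Finset.card_insert_of_notMem hz0.2]
        omega
      · intro z hz w hw hwZ
        rw [Finset.mem_insert, not_or] at hwZ
        rcases Finset.mem_insert.1 hz with rfl | hz
        · exact hmax w (Finset.mem_sdiff.2 ⟨hw, hwZ.2⟩)
        · exact hZ z hz w hw hwZ.2
    · exact ⟨Z, hZS, by omega, hZ⟩

/-- a relation contained in `lt` in which every vertex has at most `t` out-neighbours is `(t+1)`-colourable.
PROOF: `degenerate_col` of `Cycle.lean` with `r := lt`, `a' := a` (`TransGen lt x y → lt x y` by transitivity; `Set.ncard_le_...` from the finset).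
Take `Fintype.ofFinite V`. -/
theorem outdeg_col [Finite V] (h : HO r lt) (a : V → V → Prop) (ha : ∀ x y, a x y → lt x y) (t : ℕ)
    (hd : ∀ v, ∃ S : Finset V, S.card ≤ t ∧ ∀ w, a v w → w ∈ S) :
    ∃ f : V → ℕ, (∀ v, f v < t + 1) ∧ ∀ x y, a x y → f x ≠ f y := by
  classical
  haveI := Fintype.ofFinite V
  have hT : ∀ x y, Relation.TransGen lt x y → lt x y := by
    intro x y hxy
    induction hxy with
    | single h1 => exact h1
    | tail _ h2 ih => exact h.trans _ _ _ ih h2
  obtain ⟨f, hf⟩ := degenerate_col (r := lt) (a' := a)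
    (fun x hx => h.irr x (hT x x hx)) ha (D := t) (by
      intro x
      obtain ⟨S, hS, hS2⟩ := hd x
      calc Set.ncard {b | a x b} ≤ (S : Set V).ncard :=
            Set.ncard_le_ncard (fun b hb => hS2 b hb) S.finite_toSet
        _ = S.card := Set.ncard_coe_finset S
        _ ≤ t := hS)
  exact ⟨fun v => (f v : ℕ), fun v => (f v).2, fun x y hxy he => hf x y hxy (Fin.ext he)⟩

end Pool.Agent.Lib.MP_b0c2b5_co.LS
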