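import Pool.Agent.Lib.MP_b0c2b5_co.LS.Defs

/-! Nested covers give caterpillars; long paths or few colours. -/

set_option autoImplicit false

namespace Pool.Agent.Lib.MP_b0c2b5_co.LS

universe u

variable {V : Type u} {r lt : V → V → Prop}

/-- PROOF. Let `B` be the sequence of `OutD` (`m = s * t`). For `i < s`, `j < t` choose `z i j ∈ B (i*t+j)` with `r (p i) (z i j)`
(`p i ∈ C`). The labels `i*t+j` are pairwise different and increase with `i`; for labels `a < b` the sets `B a`, `B b` satisfy
`¬ r b b' ∧ b ≠ b'`. `Z i = image (z i) (range t)` has `t` elements (for `j < j'` the points are different by the second part of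
`OutD`). No arc from `z i j` to `p l`: `OutCov (B _) C` has no arc from `B` to `C` and `p l ∈ C`. No arc from `z i j` to `z l j'`
for `i < l`: label of the first is smaller. -/
theorem comb_of_outD {s t : ℕ} {C : Set V} (hD : OutD r (s*t) C) {p : ℕ → V} (hp : ∀ i < s, p i ∈ C)
    (hpp : ∀ i, i + 1 < s → r (p i) (p (i+1))) : UpComb r s t := by
  classical
  obtain ⟨B, hB, hB2⟩ := hD
  have hlab : ∀ i < s, ∀ j < t, i * t + j < s * t := by
    intro i hi j hj
    have h1 : (i + 1) * t ≤ s * t := Nat.mul_le_mul_right t hi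
    have h2 : (i + 1) * t = i * t + t := by ring
    omega
  have hz : ∀ i j : ℕ, ∃ z : V, i < s → j < t → z ∈ B (i * t + j) ∧ r (p i) z := by
    intro i j
    by_cases hi : i < s
    · by_cases hj : j < t
      · obtain ⟨b, hb, hb2⟩ := (hB _ (hlab i hi j hj)).1 (p i) (hp i hi)
        exact ⟨b, fun _ _ => ⟨hb, hb2⟩⟩
      · exact ⟨p 0, fun _ h => absurd h hj⟩
    · exact ⟨p 0, fun h => absurd h hi⟩
  choose z hz using hz
  refine ⟨p, fun i => (Finset.range t).image (z i), hpp, ?_, ?_⟩
  · intro i hi
    refine ⟨?_, ?_⟩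
    · rw [Finset.card_image_of_injOn, Finset.card_range]
      intro j hj j' hj' he
      have hj1 : j < t := Finset.mem_range.mp (Finset.mem_coe.mp hj)
      have hj2 : j' < t := Finset.mem_range.mp (Finset.mem_coe.mp hj')
      rcases lt_trichotomy j j' with h | h | h
      · exact absurd he (hB2 (i * t + j) (i * t + j') (by omega) (hlab i hi j' hj2) _
          (hz i j hi hj1).1 _ (hz i j' hi hj2).1).2
      · exact h
      · exact absurd he.symm (hB2 (i * t + j') (i * t + j) (by omega) (hlab i hi j hj1) _
          (hz i j' hi hj2).1 _ (hz i j hi hj1).1).2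
    · intro w hw
      obtain ⟨j, hj, rfl⟩ := Finset.mem_image.mp hw
      exact (hz i j hi (Finset.mem_range.mp hj)).2
  · intro i l hil hl w hw
    obtain ⟨j, hj, rfl⟩ := Finset.mem_image.mp hw
    have hi : i < s := hil.trans hl
    have hj1 := Finset.mem_range.mp hj
    refine ⟨((hB _ (hlab i hi j hj1)).2 (p l) (hp l hl) _ (hz i j hi hj1).1).1, ?_⟩
    intro w' hw'
    obtain ⟨j', hj', rfl⟩ := Finset.mem_image.mp hw'
    have hj2 := Finset.mem_range.mp hj'
    have hlt : i * t + j < l * t + j' := by
      have h1 : (i + 1) * t ≤ l * t := Nat.mul_le_mul_right t hil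
      have h2 : (i + 1) * t = i * t + t := by ring
      omega
    exact (hB2 _ _ hlt (hlab l hl j' hj2) _ (hz i j hi hj1).1 _ (hz l j' hl hj2).1).1

/-- there is a directed path with `q + 1` vertices in `W` ending at `v` -/
def Cover_A (r : V → V → Prop) (W : Set V) : ℕ → V → Prop
  | 0, v => v ∈ W
  | q + 1, v => v ∈ W ∧ ∃ u, Cover_A r W q u ∧ r u v

lemma Cover_A_path (r : V → V → Prop) (W : Set V) (q : ℕ) : ∀ v, Cover_A r W q v →
    ∃ p : ℕ → V, p q = v ∧ (∀ i ≤ q, p i ∈ W) ∧ ∀ i < q, r (p i) (p (i+1)) := by
  induction q with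
  | zero =>
    intro v hv
    exact ⟨fun _ => v, rfl, fun _ _ => hv, fun i hi => absurd hi (by omega)⟩
  | succ q ih =>
    intro v hv
    obtain ⟨hvW, u, hu, huv⟩ := hv
    obtain ⟨p, hpq, hpW, hpr⟩ := ih u hu
    refine ⟨fun i => if i ≤ q then p i else v, ?_, ?_, ?_⟩
    · have : ¬ (q + 1 ≤ q) := by omega
      simp only [this, if_false]
    · intro i _
      by_cases h : i ≤ q
      · simp only [h, if_true]
        exact hpW i h
      · simp only [h, if_false]
        exact hvW
    · intro i hi
      have h1 : i ≤ q := by omega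
      by_cases h2 : i + 1 ≤ q
      · simp only [h1, h2, if_true]
        exact hpr i (by omega)
      · have h3 : i = q := by omega
        subst h3
        simp only [h1, h2, if_true, if_false]
        rw [hpq]
        exact huv

/-- Gallai-Roy on a set. PROOF. Let `A q v` mean: there is a directed path with `q + 1` vertices in `W` ending at `v`
(`A 0 v` iff `v ∈ W`). If `A (s-1) v` for some `v` we have the path (a path of `s` vertices). Otherwise colour `v ∈ W` with the largest `q < s` such that
`A q v` (`Nat.findGreatest`): along an arc inside `W` it increases strictly. It is convenient to define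
`A : ℕ → V → Prop` by recursion, `A 0 v = (v ∈ W)`, `A (q+1) v = (v ∈ W ∧ ∃ u, A q u ∧ r u v)`, and to show by induction on `q`
that `A q v` gives `p : ℕ → V` with `p q = v`, `∀ i ≤ q, p i ∈ W`, `∀ i < q, r (p i) (p (i+1))` (use `fun i => if i ≤ q then p i else v`). -/
theorem path_or_col (r : V → V → Prop) (W : Set V) {s : ℕ} (hs : 1 ≤ s) :
    (∃ p : ℕ → V, (∀ i < s, p i ∈ W) ∧ ∀ i, i + 1 < s → r (p i) (p (i+1))) ∨ ColOn r W s := by
  classical
  by_cases h : ∃ v, Cover_A r W (s - 1) v
  · left
    obtain ⟨v, hv⟩ := h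
    obtain ⟨p, _, hpW, hpr⟩ := Cover_A_path r W (s - 1) v hv
    exact ⟨p, fun i hi => hpW i (by omega), fun i hi => hpr i (by omega)⟩
  · right
    refine ⟨fun v => Nat.findGreatest (fun q => Cover_A r W q v) (s - 1), ?_, ?_⟩
    · intro v _
      have := Nat.findGreatest_le (P := fun q => Cover_A r W q v) (s - 1)
      show Nat.findGreatest (fun q => Cover_A r W q v) (s - 1) < s
      omega
    · intro x hx y hy hxy
      have h1 : Cover_A r W (Nat.findGreatest (fun q => Cover_A r W q x) (s - 1)) x :=
        Nat.findGreatest_spec (P := fun q => Cover_A r W q x) (m := 0) (Nat.zero_le _) hx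
      have h2 := Nat.findGreatest_le (P := fun q => Cover_A r W q x) (s - 1)
      have h3 : Nat.findGreatest (fun q => Cover_A r W q x) (s - 1) ≠ s - 1 := by
        intro he
        rw [he] at h1
        exact h ⟨x, h1⟩
      have h4 : Nat.findGreatest (fun q => Cover_A r W q x) (s - 1) + 1 ≤
          Nat.findGreatest (fun q => Cover_A r W q y) (s - 1) :=
        Nat.le_findGreatest (by omega) ⟨hy, x, h1, hxy⟩
      show Nat.findGreatest (fun q => Cover_A r W q x) (s - 1) ≠
          Nat.findGreatest (fun q => Cover_A r W q y) (s - 1)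
      omega

end Pool.Agent.Lib.MP_b0c2b5_co.LS
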