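import Pool.Agent.Lib.MP_b0c2b5_co.Cycle

/-!
Caterpillars in Hasse diagrams, definitions.

`r` is the covering relation (arcs), `lt` the order. `HO r lt` is symmetric under reversing both.
-/

set_option autoImplicit false

namespace Pool.Agent.Lib.MP_b0c2b5_co.LS

universe u

variable {V : Type u}

/-- `lt` is a strict order, `r` is contained in `lt` and shortcut free -/
structure HO (r lt : V → V → Prop) : Prop where
  irr : ∀ x, ¬ lt x x
  trans : ∀ x y z, lt x y → lt y z → lt x z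
  arc : ∀ x y, r x y → lt x y
  sf : ∀ x y z, r x y → lt x z → ¬ lt z y

/-- the reversed relation -/
def rev (r : V → V → Prop) : V → V → Prop := fun a b => r b a

lemma HO.flip {r lt : V → V → Prop} (h : HO r lt) : HO (rev r) (rev lt) where
  irr x hx := h.irr x hx
  trans x y z hxy hyz := h.trans z y x hyz hxy
  arc x y hxy := h.arc y x hxy
  sf x y z hxy hxz hzy := h.sf y x z hxy hzy hxz

/-- the digraph induced on `W` is properly colourable with `c` colours -/
def ColOn (r : V → V → Prop) (W : Set V) (c : ℕ) : Prop :=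
  ∃ f : V → ℕ, (∀ v ∈ W, f v < c) ∧ ∀ x ∈ W, ∀ y ∈ W, r x y → f x ≠ f y

/-- an out-cover: every vertex of `C` has an out-neighbour in `B`, there is no arc from `B` to `C`, and `B`, `C`
are disjoint -/
def OutCov (r : V → V → Prop) (B C : Set V) : Prop :=
  (∀ c ∈ C, ∃ b ∈ B, r c b) ∧ (∀ c ∈ C, ∀ b ∈ B, ¬ r b c ∧ b ≠ c)

/-- `C` lies in the last set of a sequence of `m` nested out-covers -/
def OutD (r : V → V → Prop) (m : ℕ) (C : Set V) : Prop :=
  ∃ B : ℕ → Set V, (∀ i < m, OutCov r (B i) C) ∧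
    ∀ i j, i < j → j < m → ∀ b ∈ B i, ∀ b' ∈ B j, ¬ r b b' ∧ b ≠ b'

/-- every out-cover and every in-cover inside `W` covers a set of chromatic number at most `k` -/
def Thin (r : V → V → Prop) (W : Set V) (k : ℕ) : Prop :=
  ∀ B C : Set V, B ⊆ W → C ⊆ W → (OutCov r B C ∨ OutCov (rev r) B C) → ColOn r C k

/-- a directed path `p 0 → ... → p (s-1)` and `t` out-neighbours of each `p i`, without arcs from the leaves
of `p i` to later vertices of the path or to their leaves -/
def UpComb (r : V → V → Prop) (s t : ℕ) : Prop :=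
  ∃ (p : ℕ → V) (Z : ℕ → Finset V), (∀ i, i + 1 < s → r (p i) (p (i+1))) ∧
    (∀ i < s, (Z i).card = t ∧ ∀ z ∈ Z i, r (p i) z) ∧
    (∀ i l, i < l → l < s → ∀ z ∈ Z i, ¬ r z (p l) ∧ ∀ z' ∈ Z l, ¬ r z z')

/-- `x` increases along the arcs inside `W` -/
def Mono (r : V → V → Prop) (W : Set V) (x : V → ℕ) : Prop :=
  ∀ u ∈ W, ∀ v ∈ W, r u v → x u < x v

/-- `W'` is a subset of `W` such that for every arc `v → w` in `W'` there are `t` out-neighbours of `v` in `W` at least as
far as `w`, and `t` in-neighbours of `w` in `W` at least as far as `v` -/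
def Ref (r : V → V → Prop) (x : V → ℕ) (t : ℕ) (W W' : Set V) : Prop :=
  W' ⊆ W ∧ ∀ v ∈ W', ∀ w ∈ W', r v w →
    (∃ Z : Finset V, Z.card = t ∧ ∀ z ∈ Z, z ∈ W ∧ r v z ∧ x w ≤ x z) ∧
    (∃ Z : Finset V, Z.card = t ∧ ∀ z ∈ Z, z ∈ W ∧ r z w ∧ x z ≤ x v)

/-- `e v` is the largest value of `x` on the out-neighbours of `v` in `W`, for `v` in `U` -/
def IsFar (r : V → V → Prop) (x : V → ℕ) (W U : Set V) (e : V → ℕ) : Prop :=
  ∀ v ∈ U, (∃ z ∈ W, r v z ∧ x z = e v) ∧ ∀ w ∈ W, r v w → x w ≤ e v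

/-- iterated exponential -/
def tow : ℕ → ℕ
  | 0 => 1
  | n + 1 => 2 ^ tow n

/-- the constant of the step lemma -/
def K (s t : ℕ) : ℕ := ((t+1)^2)^(2*s) * (2^(s*(2*s)) * (2^(s*(2*s)) * 40) + 2)

/-- the bound of the main recursion -/
def g (s t : ℕ) : ℕ → ℕ → ℕ
  | 0, _ => s
  | _ + 1, 0 => s
  | R + 1, n + 1 => K s t * g s t R (n+1) * g s t (R+1) n

/-! ### trivial facts -/

lemma ColOn.mono {r : V → V → Prop} {W W' : Set V} {c d : ℕ} (h : ColOn r W c) (hW : W' ⊆ W) (hcd : c ≤ d) :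
    ColOn r W' d := by
  obtain ⟨f, hf, hf2⟩ := h
  exact ⟨f, fun v hv => lt_of_lt_of_le (hf v (hW hv)) hcd, fun x hx y hy => hf2 x (hW hx) y (hW hy)⟩

lemma ColOn.rev {r : V → V → Prop} {W : Set V} {c : ℕ} (h : ColOn r W c) : ColOn (rev r) W c := by
  obtain ⟨f, hf, hf2⟩ := h
  exact ⟨f, hf, fun x hx y hy hxy => (hf2 y hy x hx hxy).symm⟩

/-- partition into `m` classes -/
lemma ColOn.classes {r : V → V → Prop} {W : Set V} {m c : ℕ} (q : V → ℕ) (hq : ∀ v ∈ W, q v < m)
    (h : ∀ i < m, ColOn r {v | v ∈ W ∧ q v = i} c) : ColOn r W (m * c) := by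
  classical
  have h' : ∀ i : ℕ, ∃ f : V → ℕ, i < m → (∀ v ∈ {v | v ∈ W ∧ q v = i}, f v < c) ∧
      ∀ x ∈ {v | v ∈ W ∧ q v = i}, ∀ y ∈ {v | v ∈ W ∧ q v = i}, r x y → f x ≠ f y := by
    intro i
    by_cases hi : i < m
    · obtain ⟨f, hf⟩ := h i hi
      exact ⟨f, fun _ => hf⟩
    · exact ⟨fun _ => 0, fun h => absurd h hi⟩
  choose f hf using h'
  refine ⟨fun v => q v * c + f (q v) v, ?_, ?_⟩
  · intro v hv
    have h1 := (hf (q v) (hq v hv)).1 v ⟨hv, rfl⟩
    have h2 := hq v hv
    nlinarith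
  · intro x hx y hy hxy he
    have h1 := (hf (q x) (hq x hx)).1 x ⟨hx, rfl⟩
    have h2 := (hf (q y) (hq y hy)).1 y ⟨hy, rfl⟩
    simp only at he
    have h3 : q x = q y := by
      rcases lt_trichotomy (q x) (q y) with h | h | h
      · exfalso
        have : (q x + 1) * c ≤ q y * c := Nat.mul_le_mul_right c h
        nlinarith
      · exact h
      · exfalso
        have : (q y + 1) * c ≤ q x * c := Nat.mul_le_mul_right c h
        nlinarith
    have h4 := (hf (q x) (hq x hx)).2 x ⟨hx, rfl⟩ y ⟨hy, h3.symm⟩ hxy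
    rw [h3] at he h4
    exact h4 (by omega)

/-- union of two sets -/
lemma ColOn.union {r : V → V → Prop} {A B : Set V} {c d : ℕ} (h1 : ColOn r A c) (h2 : ColOn r B d) :
    ColOn r (A ∪ B) (c + d) := by
  classical
  obtain ⟨f, hf, hf2⟩ := h1
  obtain ⟨g, hg, hg2⟩ := h2
  refine ⟨fun v => if v ∈ A then f v else c + g v, ?_, ?_⟩
  · intro v hv
    by_cases hA : v ∈ A
    · have := hf v hA
      simp only [hA, if_true]
      omega
    · have := hg v (hv.resolve_left hA)
      simp only [hA, if_false]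
      omega
  · intro x hx y hy hxy
    by_cases hxA : x ∈ A <;> by_cases hyA : y ∈ A
    · simp only [hxA, hyA, if_true]
      exact hf2 x hxA y hyA hxy
    · have := hf x hxA
      simp only [hxA, hyA, if_true, if_false]
      omega
    · have := hf y hyA
      simp only [hxA, hyA, if_true, if_false]
      omega
    · have := hg2 x (hx.resolve_left hxA) y (hy.resolve_left hyA) hxy
      simp only [hxA, hyA, if_false]
      omega

lemma Thin.flip {r : V → V → Prop} {W : Set V} {k : ℕ} (h : Thin r W k) : Thin (rev r) W k := by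
  intro B C hB hC hBC
  exact (h B C hB hC hBC.symm).rev

lemma OutCov.mono {r : V → V → Prop} {B C C' : Set V} (h : OutCov r B C) (hC : C' ⊆ C) : OutCov r B C' :=
  ⟨fun c hc => h.1 c (hC hc), fun c hc => h.2 c (hC hc)⟩

lemma OutD.mono {r : V → V → Prop} {m : ℕ} {C C' : Set V} (h : OutD r m C) (hC : C' ⊆ C) : OutD r m C' := by
  obtain ⟨B, hB, hB2⟩ := h
  exact ⟨B, fun i hi => (hB i hi).mono hC, hB2⟩

lemma OutD.zero {r : V → V → Prop} (C : Set V) : OutD r 0 C :=
  ⟨fun _ => ∅, fun i hi => absurd hi (by omega), fun i j _ hj => absurd hj (by omega)⟩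

/-- one more nested cover -/
lemma OutD.extend {r : V → V → Prop} {m : ℕ} {W B C : Set V} (h : OutD r m W) (hB : B ⊆ W) (hC : C ⊆ W)
    (hBC : OutCov r B C) : OutD r (m+1) C := by
  classical
  obtain ⟨B', hB', hB2⟩ := h
  refine ⟨fun i => if i = m then B else B' i, ?_, ?_⟩
  · intro i hi
    by_cases him : i = m
    · simp only [him, if_true]
      exact hBC
    · simp only [him, if_false]
      exact (hB' i (by omega)).mono hC
  · intro i j hij hj b hb b' hb'
    have him : i ≠ m := by omega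
    simp only [him, if_false] at hb
    by_cases hjm : j = m
    · simp only [hjm, if_true] at hb'
      exact (hB' i (by omega)).2 b' (hB hb') b hb
    · simp only [hjm, if_false] at hb'
      exact hB2 i j hij (by omega) b hb b' hb'

lemma rev_rev (r : V → V → Prop) : rev (rev r) = r := rfl

end Pool.Agent.Lib.MP_b0c2b5_co.LS
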