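import Pool.Agent.Lib.MP_b0c2b5_co.LS.Defs

/-! Hasse diagrams. -/

set_option autoImplicit false

namespace Pool.Agent.Lib.MP_b0c2b5_co.LS

universe u

/-- the caterpillar with the spine `0 - 1 - ... - (s-1)` and `t` pendant vertices `(i,0), ..., (i,t-1)` at every vertex `i` of the spine -/
def cat (s t : ℕ) : SimpleGraph (Fin s ⊕ (Fin s × Fin t)) where
  Adj u v := match u, v with
    | .inl a, .inl b => (a : ℕ) + 1 = b ∨ (b : ℕ) + 1 = a
    | .inl a, .inr l => a = l.1
    | .inr l, .inl a => a = l.1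
    | .inr _, .inr _ => False
  symm := ⟨by
    rintro (a | l) (b | m) h
    · exact h.symm
    · exact h
    · exact h
    · exact h⟩
  loopless := ⟨by
    rintro (a | l) h
    · simp at h
    · exact h⟩

/-- PROOF. `HO (⋖) (<)` for a partial order: `sf`: `CovBy` has nothing strictly between. -/
theorem ho_covBy (P : Type u) [PartialOrder P] : HO (fun a b : P => a ⋖ b) (fun a b => a < b) where
  irr x := lt_irrefl x
  trans _ _ _ := lt_trans
  arc _ _ h := h.lt
  sf _ _ _ h hxz := h.2 hxz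

section comb

variable {V : Type u} {r lt : V → V → Prop}

private lemma FinalA_lt (h : HO r lt) {s : ℕ} {p : ℕ → V}
    (hp : ∀ i, i + 1 < s → r (p i) (p (i + 1))) (i : ℕ) :
    ∀ l, i < l → l < s → lt (p i) (p l) := by
  intro l
  induction l with
  | zero => intro hi; omega
  | succ l ih =>
    intro hi hl
    have h1 : lt (p l) (p (l + 1)) := h.arc _ _ (hp l hl)
    by_cases hil : i = l
    · rw [hil]; exact h1
    · exact h.trans _ _ _ (ih (by omega) (by omega)) h1

/-- the relations between the vertices of a comb -/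
private structure FinalA_Cmb (r : V → V → Prop) (s t : ℕ) (p : ℕ → V) (z : ℕ → ℕ → V) : Prop where
  pp : ∀ i l, i < l → l < s → p i ≠ p l ∧ ¬ r (p l) (p i) ∧ (r (p i) (p l) ↔ l = i + 1)
  pz : ∀ i < s, ∀ m < t, r (p i) (z i m) ∧ p i ≠ z i m
  zp : ∀ i l, i < l → l < s → ∀ m < t,
    ¬ r (z i m) (p l) ∧ ¬ r (p l) (z i m) ∧ z i m ≠ p l
  pz' : ∀ i l, i < l → l < s → ∀ m < t,
    ¬ r (p i) (z l m) ∧ ¬ r (z l m) (p i) ∧ p i ≠ z l m
  zz : ∀ i l, i < l → l < s → ∀ m < t, ∀ m' < t,
    ¬ r (z i m) (z l m') ∧ ¬ r (z l m') (z i m) ∧ z i m ≠ z l m'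
  zz' : ∀ i < s, ∀ m < t, ∀ m' < t, ¬ r (z i m) (z i m')

private lemma FinalA_cmb (h : HO r lt) {s t : ℕ} (ht : 1 ≤ t) {p : ℕ → V} {Z : ℕ → Finset V}
    (hp : ∀ i, i + 1 < s → r (p i) (p (i + 1)))
    (hZ : ∀ i < s, (Z i).card = t ∧ ∀ z ∈ Z i, r (p i) z)
    (hN : ∀ i l, i < l → l < s → ∀ z ∈ Z i, ¬ r z (p l) ∧ ∀ z' ∈ Z l, ¬ r z z')
    {z : ℕ → ℕ → V} (hz : ∀ i < s, ∀ m < t, z i m ∈ Z i) : FinalA_Cmb r s t p z := by
  have hl := FinalA_lt h hp
  have hr : ∀ i < s, ∀ m < t, r (p i) (z i m) := fun i hi m hm => (hZ i hi).2 _ (hz i hi m hm)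
  have hrl : ∀ i < s, ∀ m < t, lt (p i) (z i m) := fun i hi m hm => h.arc _ _ (hr i hi m hm)
  refine ⟨?_, ?_, ?_, ?_, ?_, ?_⟩
  · intro i l hil hls
    have h1 := hl i l hil hls
    refine ⟨?_, ?_, ?_, ?_⟩
    · intro he
      rw [he] at h1
      exact h.irr _ h1
    · intro h2
      exact h.irr _ (h.trans _ _ _ h1 (h.arc _ _ h2))
    · intro h2
      by_contra hne
      have h3 : lt (p i) (p (i + 1)) := hl i (i + 1) (by omega) (by omega)
      have h4 : lt (p (i + 1)) (p l) := hl (i + 1) l (by omega) hls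
      exact h.sf _ _ _ h2 h3 h4
    · intro he
      rw [he]
      exact hp i (by omega)
  · intro i hi m hm
    refine ⟨hr i hi m hm, fun he => ?_⟩
    have h1 := hrl i hi m hm
    rw [← he] at h1
    exact h.irr _ h1
  · intro i l hil hls m hm
    have his : i < s := by omega
    have h1 := hN i l hil hls _ (hz i his m hm)
    refine ⟨h1.1, ?_, ?_⟩
    · intro h2
      exact h.sf _ _ _ (hr i his m hm) (hl i l hil hls) (h.arc _ _ h2)
    · intro he
      have h2 := h1.2 _ (hz l hls 0 (by omega))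
      rw [he] at h2
      exact h2 (hr l hls 0 (by omega))
  · intro i l hil hls m hm
    have h1 := hl i l hil hls
    have h2 := hrl l hls m hm
    refine ⟨?_, ?_, ?_⟩
    · intro h3
      exact h.sf _ _ _ h3 h1 h2
    · intro h3
      exact h.irr _ (h.trans _ _ _ (h.trans _ _ _ h1 h2) (h.arc _ _ h3))
    · intro he
      rw [← he] at h2
      exact h.irr _ (h.trans _ _ _ h1 h2)
  · intro i l hil hls m hm m' hm'
    have his : i < s := by omega
    have h1 := hl i l hil hls
    have h2 := hrl l hls m' hm'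
    have h3 := h.trans _ _ _ h1 h2
    refine ⟨(hN i l hil hls _ (hz i his m hm)).2 _ (hz l hls m' hm'), ?_, ?_⟩
    · intro h4
      exact h.sf _ _ _ (hr i his m hm) h3 (h.arc _ _ h4)
    · intro he
      have h5 := hr i his m hm
      rw [he] at h5
      exact h.sf _ _ _ h5 h1 h2
  · intro i hi m hm m' hm' h1
    exact h.sf _ _ _ (hr i hi m' hm') (hrl i hi m hm) (h.arc _ _ h1)

end comb

/-- A comb of a relation `r` with `HO r lt` is an induced copy of `cat s t` in any graph whose adjacency is `r a b ∨ r b a`.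
PROOF. Enumerate `Z i` by `Fin t`; map `inl a ↦ p a`, `inr (a, m) ↦` the `m`-th element of `Z a`. For `i < l < s`: `lt (p i) (p l)` by transitivity.
NOT adjacent / different, for `i < l`: `p i`, `p l` with `l ≥ i+2`: `r (p i) (p l)` is excluded by `sf` with `p (i+1)` in between, `r (p l) (p i)` by irreflexivity.
Leaf `z` of `p i` and `p l`: `r (p l) z`: then `lt (p i) (p l)`, `lt (p l) z`, against `r (p i) z`; `r z (p l)`: excluded by hypothesis; `z = p l`: if `z = p l` then for a leaf `z'` of `p l` (there is one, `1 ≤ t`) `r z z'` is excluded by hypothesis but is `r (p l) z'`.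
Leaf `z` of `p l` and `p i`: `r (p i) z`: `sf` with `p l` between; `r z (p i)` and `z = p i`: `lt (p i) (p l)`, `lt (p l) z` and irreflexivity.
Leaf `z` of `p i`, leaf `z'` of `p l`: `r z z'` excluded by hypothesis; `r z' z`: `lt (p l) z'`, so `lt (p i) z'`... precisely `r (p i) z`, `lt (p i) z'`, `lt z' z`, against `sf`; `z = z'`: `r (p i) z`, `lt (p i) (p l)`, `lt (p l) z`, `sf`.
Two leaves of the same `p i`: `r z z'` is excluded by `sf` (`r (p i) z'`, `lt (p i) z`, `lt z z'`). Leaf `z` of `p i` and `p i`: adjacent; different by irreflexivity. -/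
theorem embed_of_comb {V : Type u} {r lt : V → V → Prop} (h : HO r lt) {s t : ℕ} (ht : 1 ≤ t) (G : SimpleGraph V)
    (hG : ∀ a b, G.Adj a b ↔ r a b ∨ r b a) (hc : UpComb r s t) : Nonempty (cat s t ↪g G) := by
  classical
  obtain ⟨p, Z, hp, hZ, hN⟩ := hc
  have hex : ∀ i, ∃ z : ℕ → V, i < s → (∀ m < t, z m ∈ Z i) ∧
      ∀ m < t, ∀ m' < t, z m = z m' → m = m' := by
    intro i
    by_cases hi : i < s
    · have hcard := (hZ i hi).1
      have hne : 0 < (Z i).card := by omega
      obtain ⟨z₀, _⟩ := Finset.card_pos.1 hne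
      let e := (Z i).equivFinOfCardEq hcard
      refine ⟨fun m => if hm : m < t then (e.symm ⟨m, hm⟩ : V) else z₀, fun _ => ⟨?_, ?_⟩⟩
      · intro m hm
        simp only [dif_pos hm]
        exact (e.symm ⟨m, hm⟩).2
      · intro m hm m' hm' he
        simp only [dif_pos hm, dif_pos hm'] at he
        have h1 := e.symm.injective (Subtype.ext he)
        exact Fin.mk.inj_iff.1 h1
    · exact ⟨fun _ => p 0, fun h => absurd h hi⟩
  choose z hz using hex
  have C := FinalA_cmb h ht hp hZ hN (fun i hi => (hz i hi).1)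
  have hirr : ∀ x, ¬ r x x := fun x hx => h.irr _ (h.arc _ _ hx)
  let φ : Fin s ⊕ (Fin s × Fin t) → V := fun u => match u with
    | .inl a => p a
    | .inr l => z l.1 l.2
  have hφ : ∀ u v, u ≠ v → φ u ≠ φ v ∧ (G.Adj (φ u) (φ v) ↔ (cat s t).Adj u v) := by
    rintro (a | l) (b | m) huv
    · show p a ≠ p b ∧ (G.Adj (p a) (p b) ↔ ((a : ℕ) + 1 = b ∨ (b : ℕ) + 1 = a))
      have hne : (a : ℕ) ≠ b := fun he => huv (by rw [Fin.ext he])
      rw [hG]
      rcases lt_or_gt_of_ne hne with hlt | hlt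
      · obtain ⟨h1, h2, h3⟩ := C.pp a b hlt b.2
        refine ⟨h1, ?_, ?_⟩
        · rintro (h4 | h4)
          · exact Or.inl (h3.1 h4).symm
          · exact absurd h4 h2
        · rintro (h4 | h4)
          · exact Or.inl (h3.2 h4.symm)
          · omega
      · obtain ⟨h1, h2, h3⟩ := C.pp b a hlt a.2
        refine ⟨h1.symm, ?_, ?_⟩
        · rintro (h4 | h4)
          · exact absurd h4 h2
          · exact Or.inr (h3.1 h4).symm
        · rintro (h4 | h4)
          · omega
          · exact Or.inr (h3.2 h4.symm)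
    · show p a ≠ z m.1 m.2 ∧ (G.Adj (p a) (z m.1 m.2) ↔ a = m.1)
      rw [hG]
      rcases lt_trichotomy (a : ℕ) (m.1 : ℕ) with hlt | heq | hlt
      · obtain ⟨h1, h2, h3⟩ := C.pz' a m.1 hlt m.1.2 m.2 m.2.2
        refine ⟨h3, ?_, ?_⟩
        · rintro (h4 | h4)
          · exact absurd h4 h1
          · exact absurd h4 h2
        · intro he
          rw [he] at hlt
          omega
      · have he : a = m.1 := Fin.ext heq
        obtain ⟨h1, h2⟩ := C.pz m.1 m.1.2 m.2 m.2.2
        rw [he]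
        exact ⟨h2, fun _ => rfl, fun _ => Or.inl h1⟩
      · obtain ⟨h1, h2, h3⟩ := C.zp m.1 a hlt a.2 m.2 m.2.2
        refine ⟨h3.symm, ?_, ?_⟩
        · rintro (h4 | h4)
          · exact absurd h4 h2
          · exact absurd h4 h1
        · intro he
          rw [he] at hlt
          omega
    · show z l.1 l.2 ≠ p b ∧ (G.Adj (z l.1 l.2) (p b) ↔ b = l.1)
      rw [hG]
      rcases lt_trichotomy (b : ℕ) (l.1 : ℕ) with hlt | heq | hlt
      · obtain ⟨h1, h2, h3⟩ := C.pz' b l.1 hlt l.1.2 l.2 l.2.2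
        refine ⟨h3.symm, ?_, ?_⟩
        · rintro (h4 | h4)
          · exact absurd h4 h2
          · exact absurd h4 h1
        · intro he
          rw [he] at hlt
          omega
      · have he : b = l.1 := Fin.ext heq
        obtain ⟨h1, h2⟩ := C.pz l.1 l.1.2 l.2 l.2.2
        rw [he]
        exact ⟨h2.symm, fun _ => rfl, fun _ => Or.inr h1⟩
      · obtain ⟨h1, h2, h3⟩ := C.zp l.1 b hlt b.2 l.2 l.2.2
        refine ⟨h3, ?_, ?_⟩
        · rintro (h4 | h4)
          · exact absurd h4 h1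
          · exact absurd h4 h2
        · intro he
          rw [he] at hlt
          omega
    · show z l.1 l.2 ≠ z m.1 m.2 ∧ (G.Adj (z l.1 l.2) (z m.1 m.2) ↔ False)
      rw [hG]
      rcases lt_trichotomy (l.1 : ℕ) (m.1 : ℕ) with hlt | heq | hlt
      · obtain ⟨h1, h2, h3⟩ := C.zz l.1 m.1 hlt m.1.2 l.2 l.2.2 m.2 m.2.2
        exact ⟨h3, fun h4 => h4.elim h1 h2, False.elim⟩
      · have he : l.1 = m.1 := Fin.ext heq
        rw [he]
        refine ⟨fun h4 => huv ?_, fun h4 => ?_, False.elim⟩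
        · have h5 := (hz m.1 m.1.2).2 l.2 l.2.2 m.2 m.2.2 h4
          have h6 : l = m := Prod.ext he (Fin.ext h5)
          rw [h6]
        · exact h4.elim (C.zz' m.1 m.1.2 l.2 l.2.2 m.2 m.2.2)
            (C.zz' m.1 m.1.2 m.2 m.2.2 l.2 l.2.2)
      · obtain ⟨h1, h2, h3⟩ := C.zz m.1 l.1 hlt l.1.2 m.2 m.2.2 l.2 l.2.2
        exact ⟨h3.symm, fun h4 => h4.elim h2 h1, False.elim⟩
  refine ⟨⟨⟨φ, ?_⟩, ?_⟩⟩
  · intro u v huv
    by_contra hne
    exact (hφ u v hne).1 huv
  · intro u v
    by_cases huv : u = v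
    · subst huv
      exact ⟨fun h1 => absurd h1 (G.irrefl), fun h1 => absurd h1 ((cat s t).irrefl)⟩
    · exact (hφ u v huv).2

end Pool.Agent.Lib.MP_b0c2b5_co.LS
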