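import Pool.Agent.Lib.MP_b0c2b5_co.LS.RecB
import Pool.Agent.Lib.MP_b0c2b5_co.LS.FinalA

/-! Hasse diagrams. -/

set_option autoImplicit false

namespace Pool.Agent.Lib.MP_b0c2b5_co.LS

universe u

/-- PROOF. `main_bound` with `W = univ` and `x v =` the height of `v` (the largest length of an `LTSeries P` ending at `v`; e.g. `(Order.height v).toNat`;
`Order.height v ≤ ...` because all lengths are `< tow n`, and `Order.height_strictMono`; `CovBy → <`).
`¬ UpComb r s t` and `¬ UpComb (rev r) s t` by `embed_of_comb` (`h.flip`; for the second the adjacency is the same). `SimpleGraph.hasse P` has adjacency `a ⋖ b ∨ b ⋖ a`.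
`ColOn` on `univ` gives a `SimpleGraph.Coloring` with colours `Fin c`. -/
theorem hasse_bound {s t : ℕ} (hs : 1 ≤ s) (ht : 1 ≤ t) (n : ℕ) (P : Type u) [Finite P] [PartialOrder P]
    (hh : ∀ c : LTSeries P, c.length + 1 ≤ tow n) (hfree : IsEmpty (cat s t ↪g SimpleGraph.hasse P)) :
    (SimpleGraph.hasse P).Colorable ((K s t * s) ^ ((n+2)^(2*(s*t)+1))) := by
  classical
  have hO := ho_covBy P
  have hUp : ¬ UpComb (fun a b : P => a ⋖ b) s t := by
    intro hc
    obtain ⟨e⟩ := embed_of_comb hO ht (SimpleGraph.hasse P) (fun a b => Iff.rfl) hc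
    exact hfree.false e
  have hDn : ¬ UpComb (rev (fun a b : P => a ⋖ b)) s t := by
    intro hc
    obtain ⟨e⟩ := embed_of_comb hO.flip ht (SimpleGraph.hasse P) (fun a b => Or.comm) hc
    exact hfree.false e
  -- heights are finite
  have hfin : ∀ v : P, Order.height v + 1 ≤ (tow n : ℕ∞) := by
    intro v
    have h1 : Order.height v ≤ ((tow n - 1 : ℕ) : ℕ∞) := by
      apply Order.height_le
      intro c hc
      have := hh c
      have h2 : c.length ≤ tow n - 1 := by omega
      exact_mod_cast h2
    have h3 : 1 ≤ tow n := by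
      have := hh (RelSeries.singleton _ v)
      omega
    calc Order.height v + 1 ≤ ((tow n - 1 : ℕ) : ℕ∞) + 1 := by gcongr
      _ = ((tow n - 1 + 1 : ℕ) : ℕ∞) := by push_cast; rfl
      _ = (tow n : ℕ∞) := by rw [Nat.sub_add_cancel h3]
  have hne : ∀ v : P, Order.height v ≠ ⊤ := by
    intro v hv
    have := hfin v
    rw [hv] at this
    simp at this
  have hlt : ∀ v : P, (Order.height v).toNat < tow n := by
    intro v
    have h1 := hfin v
    rw [← ENat.natCast_toNat (hne v)] at h1
    have h2 : (Order.height v).toNat + 1 ≤ tow n := by exact_mod_cast h1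
    omega
  have hmono : Mono (fun a b : P => a ⋖ b) Set.univ (fun v => (Order.height v).toNat) := by
    intro u _ v _ huv
    have h1 : Order.height u < Order.height v :=
      Order.height_strictMono huv.lt (lt_top_iff_ne_top.mpr (hne u))
    rw [← ENat.natCast_toNat (hne u), ← ENat.natCast_toNat (hne v)] at h1
    exact_mod_cast h1
  obtain ⟨f, hf, hf2⟩ := main_bound hO hs ht hUp hDn n Set.univ (fun v => (Order.height v).toNat) hmono
    (fun v _ => hlt v)
  refine ⟨SimpleGraph.Coloring.mk (fun v => (⟨f v, hf v (Set.mem_univ v)⟩ : Fin _)) ?_⟩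
  intro a b hab he
  have he' : f a = f b := congrArg Fin.val he
  rcases hab with hab | hab
  · exact hf2 a (Set.mem_univ a) b (Set.mem_univ b) hab he'
  · exact hf2 b (Set.mem_univ b) a (Set.mem_univ a) hab he'.symm

end Pool.Agent.Lib.MP_b0c2b5_co.LS
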