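import Pool.Agent.Lib.MP_b0c2b5_co.LS.Defs

/-! The recursion. -/

set_option autoImplicit false

namespace Pool.Agent.Lib.MP_b0c2b5_co.LS

universe u

variable {V : Type u} {r lt : V → V → Prop}

/-- PROOF: `1 ≤ K s t`, induction on `R` and `n`. -/
theorem le_g {s t : ℕ} (hs : 1 ≤ s) (R n : ℕ) : s ≤ g s t R n := by
  have hK : 1 ≤ K s t := by
    unfold K
    exact Nat.one_le_iff_ne_zero.2 (by positivity)
  induction R generalizing n with
  | zero => simp [g]
  | succ R ihR =>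
    induction n with
    | zero => simp [g]
    | succ n ihn =>
      rw [g]
      have h1 : 1 ≤ K s t * g s t R (n + 1) :=
        Nat.mul_pos hK (lt_of_lt_of_le hs (ihR (n + 1)))
      calc s ≤ g s t (R + 1) n := ihn
        _ = 1 * g s t (R + 1) n := (one_mul _).symm
        _ ≤ _ := Nat.mul_le_mul_right _ h1

/-- closed form. PROOF: with `A = K s t * s ≥ 1` show `g s t R n ≤ A^(e R n)`, by induction, where `e R n = (n+2)^(R+1)`:
`g 0 n = s ≤ A`, `g (R+1) 0 = s`, and `K * g R (n+1) * g (R+1) n ≤ A^(1 + (n+3)^(R+1) + (n+2)^(R+2))` and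
`1 + (n+3)^(R+1) + (n+2)^(R+2) ≤ (n+3)^(R+2)` because `(n+2)^(R+2) + 1 ≤ (n+2) (n+3)^(R+1)` (`(n+2)^(R+1) + 1 ≤ (n+3)^(R+1)`). -/
theorem g_le {s t : ℕ} (hs : 1 ≤ s) (R n : ℕ) : g s t R n ≤ (K s t * s) ^ ((n+2)^(R+1)) := by
  have hK : 1 ≤ K s t := by
    unfold K
    exact Nat.one_le_iff_ne_zero.2 (by positivity)
  have hA : 1 ≤ K s t * s := Nat.mul_pos hK hs
  have hsA : s ≤ K s t * s := Nat.le_mul_of_pos_left s hK
  have hKA : K s t ≤ K s t * s := Nat.le_mul_of_pos_right _ hs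
  have hpow : ∀ e : ℕ, 1 ≤ e → s ≤ (K s t * s) ^ e := fun e he =>
    hsA.trans (Nat.le_self_pow (by omega) _)
  induction R generalizing n with
  | zero =>
    rw [g]
    exact hpow _ (Nat.one_le_pow _ _ (by omega))
  | succ R ihR =>
    induction n with
    | zero =>
      rw [g]
      exact hpow _ (Nat.one_le_pow _ _ (by omega))
    | succ n ihn =>
      rw [g]
      have h1 : K s t * g s t R (n + 1) * g s t (R + 1) n ≤
          (K s t * s) * (K s t * s) ^ ((n + 1 + 2) ^ (R + 1)) *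
            (K s t * s) ^ ((n + 2) ^ (R + 1 + 1)) :=
        Nat.mul_le_mul (Nat.mul_le_mul hKA (ihR (n + 1))) ihn
      refine h1.trans ?_
      rw [← pow_succ', ← pow_add]
      refine Nat.pow_le_pow_right hA ?_
      have h2 : (n + 2) ^ (R + 1) + 1 ≤ (n + 1 + 2) ^ (R + 1) :=
        Nat.pow_lt_pow_left (by omega) (by omega)
      have h3 : (n + 2) ^ (R + 1 + 1) = (n + 2) ^ (R + 1) * (n + 2) := pow_succ _ _
      have h4 : (n + 1 + 2) ^ (R + 1 + 1) = (n + 1 + 2) ^ (R + 1) * (n + 1 + 2) := pow_succ _ _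
      rw [h3, h4]
      nlinarith

end Pool.Agent.Lib.MP_b0c2b5_co.LS
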