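import Pool.Agent.Lib.MP_b0c2b5_co.LS.StepA

/-! The step lemma. -/

set_option autoImplicit false

namespace Pool.Agent.Lib.MP_b0c2b5_co.LS

universe u

variable {V : Type u} {r lt : V → V → Prop}

/-- THE STEP LEMMA. PROOF. `chain_col` with `N = 2s`: for a chain `Wc` it is enough to colour `Wc (2s)` with
`(2^(s*(2*s)) * (2^(s*(2*s)) * 40) + 2) * k * F` colours: the vertices without out-neighbour in `Wc (2s)` and those without in-neighbour in it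
are colourable with one colour each (no arcs inside), the rest by `last_class`; `1 ≤ k`, `1 ≤ F`. -/
theorem step [Finite V] (h : HO r lt) {s t : ℕ} (hs : 1 ≤ s) (ht : 1 ≤ t)
    (hUp : ¬ UpComb r s t) (hDn : ¬ UpComb (rev r) s t) {W : Set V} {x : V → ℕ} {L k F : ℕ}
    (hk : 1 ≤ k) (hF : 1 ≤ F) (hthin : Thin r W k) (hx : Mono r W x) (hxL : ∀ v ∈ W, x v < 2^L)
    (hrec : ∀ U ⊆ W, ∀ y : V → ℕ, Mono r U y → (∀ v ∈ U, y v < L) → ColOn r U F) :
    ColOn r W (K s t * k * F) := by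
  have key : ∀ Wc : ℕ → Set V, Wc 0 = W → (∀ i < 2*s, Ref r x t (Wc i) (Wc (i+1))) →
      ColOn r (Wc (2*s)) ((2^(s*(2*s)) * (2^(s*(2*s)) * 40) + 2) * k * F) := by
    intro Wc hW0 hR
    have h1 := last_class h hs ht hUp hDn hthin hx hxL hrec Wc hW0 hR
    have h2 : ColOn r {v | v ∈ Wc (2*s) ∧ ∀ z ∈ Wc (2*s), ¬ r v z} 1 :=
      ⟨fun _ => 0, fun _ _ => Nat.one_pos, fun a ha b hb hab => absurd hab (ha.2 b hb.1)⟩
    have h3 : ColOn r {v | v ∈ Wc (2*s) ∧ ∀ z ∈ Wc (2*s), ¬ r z v} 1 :=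
      ⟨fun _ => 0, fun _ _ => Nat.one_pos, fun a ha b hb hab => absurd hab (hb.2 a ha.1)⟩
    refine (h1.union (h2.union h3)).mono ?_ ?_
    · intro v hv
      by_cases ho : ∃ z ∈ Wc (2*s), r v z
      · by_cases hi : ∃ z ∈ Wc (2*s), r z v
        · exact Or.inl ⟨hv, ho, hi⟩
        · exact Or.inr (Or.inr ⟨hv, fun z hz hzv => hi ⟨z, hz, hzv⟩⟩)
      · exact Or.inr (Or.inl ⟨hv, fun z hz hvz => ho ⟨z, hz, hvz⟩⟩)
    · have hkF : 1 ≤ k * F := Nat.mul_pos hk hF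
      calc 2^(s*(2*s)) * (2^(s*(2*s)) * (40 * k * F)) + (1 + 1)
          ≤ 2^(s*(2*s)) * (2^(s*(2*s)) * (40 * k * F)) + 2 * (k * F) := by omega
        _ = (2^(s*(2*s)) * (2^(s*(2*s)) * 40) + 2) * k * F := by ring
  refine (chain_col h (2*s) W key).mono subset_rfl (le_of_eq ?_)
  unfold K
  ring

end Pool.Agent.Lib.MP_b0c2b5_co.LS
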