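import Pool.Agent.Lib.MP_b0c2b5_co.LS.RecA
import Pool.Agent.Lib.MP_b0c2b5_co.LS.Cover
import Pool.Agent.Lib.MP_b0c2b5_co.LS.StepB

/-! The main recursion. -/

set_option autoImplicit false

namespace Pool.Agent.Lib.MP_b0c2b5_co.LS

universe u

variable {V : Type u} {r lt : V → V → Prop}

/-- THE MAIN RECURSION. `m₁`, `m₂` = number of nested out-covers and in-covers already found.
PROOF. Induction on `R` for all `n, m₁, m₂, W, x`; inside, induction on `n`.
If `m₁ = s*t` (or `m₂ = s*t`): `path_or_col`: a path gives `UpComb r s t` by `comb_of_outD` (for `m₂`: apply `path_or_col` and `comb_of_outD` to `rev r`, and `ColOn.rev`), contradiction; so `ColOn r W s`, and `s ≤ g s t R n` (`le_g`).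
Otherwise `m₁, m₂ < s*t`, so `R ≥ 2`, `R = R' + 1`. For this `n`: `Thin r W (g s t R' n)`: for `B, C ⊆ W` with `OutCov r B C`: `OutD r (m₁+1) C` (`OutD.extend`), `OutD (rev r) m₂ C` (`OutD.mono`), and the induction hypothesis for `R'`; the same for
`OutCov (rev r) B C` with `m₂+1`.
`n = 0`: `tow 0 = 1`, so `x = 0` on `W` and there are no arcs inside `W`: `ColOn r W 1`. `n = n'+1`: `step` with `L = tow n'` (`tow (n'+1) = 2^tow n'`), `k = g s t R' (n'+1)`, `F = g s t (R'+1) n'`, where `hrec` is the inner induction hypothesis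
(`OutD.mono`). The result is `g s t (R'+1) (n'+1)` by definition. -/
theorem main_rec [Finite V] (h : HO r lt) {s t : ℕ} (hs : 1 ≤ s) (ht : 1 ≤ t)
    (hUp : ¬ UpComb r s t) (hDn : ¬ UpComb (rev r) s t) (R : ℕ) :
    ∀ (n m₁ m₂ : ℕ), m₁ ≤ s*t → m₂ ≤ s*t → (s*t - m₁) + (s*t - m₂) ≤ R →
      ∀ (W : Set V), OutD r m₁ W → OutD (rev r) m₂ W → ∀ x : V → ℕ, Mono r W x → (∀ v ∈ W, x v < tow n) →
        ColOn r W (g s t R n) := by
  -- the case of `s*t` covers
  have base1 : ∀ (W : Set V) (R n : ℕ), OutD r (s*t) W → ColOn r W (g s t R n) := by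
    intro W R n hD
    rcases path_or_col r W hs with ⟨p, hp, hpp⟩ | hc
    · exact absurd (comb_of_outD hD hp hpp) hUp
    · exact hc.mono (le_refl _) (le_g hs R n)
  have base2 : ∀ (W : Set V) (R n : ℕ), OutD (rev r) (s*t) W → ColOn r W (g s t R n) := by
    intro W R n hD
    rcases path_or_col (rev r) W hs with ⟨p, hp, hpp⟩ | hc
    · exact absurd (comb_of_outD hD hp hpp) hDn
    · exact (ColOn.rev hc).mono (le_refl _) (le_g hs R n)
  induction R with
  | zero =>
    intro n m₁ m₂ h1 h2 h3 W hD1 hD2 x hx hxn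
    have : m₁ = s*t := by omega
    subst this
    exact base1 W 0 n hD1
  | succ R' ihR =>
    intro n
    induction n with
    | zero =>
      intro m₁ m₂ h1 h2 h3 W hD1 hD2 x hx hxn
      refine ⟨fun _ => 0, fun v hv => lt_of_lt_of_le Nat.zero_lt_one (le_trans hs (le_g hs _ _)), ?_⟩
      intro u hu v hv huv
      exfalso
      have h4 := hx u hu v hv huv
      have h5 := hxn v hv
      have h6 : tow 0 = 1 := rfl
      omega
    | succ n' ihn =>
      intro m₁ m₂ h1 h2 h3 W hD1 hD2 x hx hxn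
      by_cases hm1 : m₁ = s*t
      · subst hm1
        exact base1 W _ _ hD1
      by_cases hm2 : m₂ = s*t
      · subst hm2
        exact base2 W _ _ hD2
      have hthin : Thin r W (g s t R' (n'+1)) := by
        intro B C hB hC hBC
        rcases hBC with hBC | hBC
        · exact ihR (n'+1) (m₁+1) m₂ (by omega) h2 (by omega) C (hD1.extend hB hC hBC) (hD2.mono hC) x
            (fun u hu v hv => hx u (hC hu) v (hC hv)) (fun v hv => hxn v (hC hv))
        · exact ihR (n'+1) m₁ (m₂+1) h1 (by omega) (by omega) C (hD1.mono hC) (hD2.extend hB hC hBC) x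
            (fun u hu v hv => hx u (hC hu) v (hC hv)) (fun v hv => hxn v (hC hv))
      have hst := step h hs ht hUp hDn (W := W) (x := x) (L := tow n') (k := g s t R' (n'+1))
        (F := g s t (R'+1) n') (le_trans hs (le_g hs _ _)) (le_trans hs (le_g hs _ _)) hthin hx
        (fun v hv => hxn v hv)
        (fun U hU y hy hyL => ihn m₁ m₂ h1 h2 h3 U (hD1.mono hU) (hD2.mono hU) y hy hyL)
      rw [g]
      exact hst

/-- PROOF: `main_rec` with `R = 2*(s*t)`, `m₁ = m₂ = 0`, `OutD.zero`, and `g_le`. -/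
theorem main_bound [Finite V] (h : HO r lt) {s t : ℕ} (hs : 1 ≤ s) (ht : 1 ≤ t)
    (hUp : ¬ UpComb r s t) (hDn : ¬ UpComb (rev r) s t) (n : ℕ) (W : Set V) (x : V → ℕ) (hx : Mono r W x)
    (hxn : ∀ v ∈ W, x v < tow n) : ColOn r W ((K s t * s) ^ ((n+2)^(2*(s*t)+1))) := by
  have h1 := main_rec h hs ht hUp hDn (2*(s*t)) n 0 0 (by omega) (by omega) (by omega) W (OutD.zero W)
    (OutD.zero W) x hx hxn
  exact h1.mono (le_refl _) (g_le hs _ _)

end Pool.Agent.Lib.MP_b0c2b5_co.LS
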