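import Pool.Agent.Lib.MP_b0c2b5_co.LS.RefineA

/-! Refinements. -/

set_option autoImplicit false

namespace Pool.Agent.Lib.MP_b0c2b5_co.LS

universe u

variable {V : Type u} {r lt : V → V → Prop}

private lemma RefineB_card {S T : Finset V} {t : ℕ} (hTS : T ⊆ S) (hT : T.card = min t S.card) {w : V}
    (hw : w ∈ S) (hwT : w ∉ T) : T.card = t := by
  by_contra hne
  have h1 : T.card = S.card := by omega
  exact hwT ((Finset.eq_of_subset_of_card_le hTS h1.ge) ▸ hw)

/-- one refinement. PROOF. For `v` let `S v` be the finite set of out-neighbours of `v` in `W` (`v ∈ W`), `T v` the top set of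
`top_set (S v) x t`; for `w` let `T' w` be the top set of the in-neighbours of `w` in `W` for the function `fun u => M - x u`, `M` an upper
bound of `x` on the finite type. Colour the relations `a v w := v ∈ W ∧ w ∈ T v` and `a' w v := w ∈ W ∧ v ∈ T' w`
(the second for the reversed order, `h.flip`) with `f, f' < t+1`, and use `ColOn.classes` with `q v = f v * (t+1) + f' v`.
In a class an arc `v → w` has `w ∉ T v`; as `w ∈ S v`, `T v ≠ S v`, so `(T v).card = t` and `x w ≤ x z` for `z ∈ T v`;
in the same way `v ∉ T' w` gives `t` in-neighbours `z` with `M - x v ≤ M - x z`, i.e. `x z ≤ x v`. So the class `W'` satisfies `Ref r x t W W'`. -/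
theorem refine_col [Finite V] (h : HO r lt) {W : Set V} {x : V → ℕ} {t c : ℕ}
    (hc : ∀ W', Ref r x t W W' → ColOn r W' c) : ColOn r W ((t+1)^2 * c) := by
  classical
  have := Fintype.ofFinite V
  let S : V → Finset V := fun v => Finset.univ.filter (fun w => w ∈ W ∧ r v w)
  let S' : V → Finset V := fun w => Finset.univ.filter (fun v => v ∈ W ∧ r v w)
  have hM : ∀ u, x u ≤ Finset.univ.sup x := fun u => Finset.le_sup (Finset.mem_univ u)
  choose T hT1 hT2 hT3 using fun v => top_set (S v) x t
  choose T' hT'1 hT'2 hT'3 using fun w => top_set (S' w) (fun u => Finset.univ.sup x - x u) t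
  have hS : ∀ v w, w ∈ S v ↔ w ∈ W ∧ r v w := fun v w => by simp [S]
  have hS' : ∀ w v, v ∈ S' w ↔ v ∈ W ∧ r v w := fun v w => by simp [S']
  obtain ⟨f, hf1, hf2⟩ := outdeg_col h (fun v w => w ∈ T v)
    (fun v w hw => h.arc v w ((hS v w).1 (hT1 v hw)).2) t
    (fun v => ⟨T v, by rw [hT2 v]; exact min_le_left _ _, fun w hw => hw⟩)
  obtain ⟨f', hf'1, hf'2⟩ := outdeg_col h.flip (fun w v => v ∈ T' w)
    (fun w v hv => h.arc v w ((hS' w v).1 (hT'1 w hv)).2) t
    (fun w => ⟨T' w, by rw [hT'2 w]; exact min_le_left _ _, fun v hv => hv⟩)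
  refine ColOn.classes (fun v => f v * (t+1) + f' v) ?_ ?_
  · intro v _
    have h1 := hf1 v
    have h2 := hf'1 v
    have h3 : f v * (t + 1) ≤ t * (t + 1) := Nat.mul_le_mul_right _ (by omega)
    have h4 : (t + 1) ^ 2 = t * (t + 1) + (t + 1) := by ring
    omega
  · intro i _
    apply hc
    refine ⟨fun v hv => hv.1, ?_⟩
    rintro v ⟨hvW, hv⟩ w ⟨hwW, hw⟩ hvw
    have he : f v = f w ∧ f' v = f' w := by
      have h1 : f v * (t+1) + f' v = f w * (t+1) + f' w := hv.trans hw.symm
      have h2 := hf'1 v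
      have h3 := hf'1 w
      have h4 : f v = f w := by
        rcases lt_trichotomy (f v) (f w) with h5 | h5 | h5
        · exfalso
          have : (f v + 1) * (t + 1) ≤ f w * (t + 1) := Nat.mul_le_mul_right _ h5
          rw [Nat.add_mul] at this
          omega
        · exact h5
        · exfalso
          have : (f w + 1) * (t + 1) ≤ f v * (t + 1) := Nat.mul_le_mul_right _ h5
          rw [Nat.add_mul] at this
          omega
      rw [h4] at h1
      exact ⟨h4, by omega⟩
    have hwT : w ∉ T v := fun hmem => hf2 v w hmem he.1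
    have hvT : v ∉ T' w := fun hmem => hf'2 w v hmem he.2.symm
    have hwS : w ∈ S v := (hS v w).2 ⟨hwW, hvw⟩
    have hvS : v ∈ S' w := (hS' w v).2 ⟨hvW, hvw⟩
    refine ⟨⟨T v, RefineB_card (hT1 v) (hT2 v) hwS hwT, fun z hz => ?_⟩,
      ⟨T' w, RefineB_card (hT'1 w) (hT'2 w) hvS hvT, fun z hz => ?_⟩⟩
    · have h1 := (hS v z).1 (hT1 v hz)
      exact ⟨h1.1, h1.2, hT3 v z hz w hwS hwT⟩
    · have h1 := (hS' w z).1 (hT'1 w hz)
      have h2 := hT'3 w z hz v hvS hvT
      have h3 := hM z
      have h4 := hM v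
      exact ⟨h1.1, h1.2, by omega⟩

/-- a chain of refinements. PROOF: induction on `N` (for all `W`); for the step apply `refine_col` to `W`, and the induction hypothesis to `W'`
with the chain shifted by one (`fun i => if i = 0 then W else Wc (i-1)`, or `Nat.casesOn`). -/
theorem chain_col [Finite V] (h : HO r lt) {x : V → ℕ} {t c : ℕ} (N : ℕ) (W : Set V)
    (hc : ∀ Wc : ℕ → Set V, Wc 0 = W → (∀ i < N, Ref r x t (Wc i) (Wc (i+1))) → ColOn r (Wc N) c) :
    ColOn r W (((t+1)^2)^N * c) := by
  induction N generalizing W with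
  | zero =>
    have h1 := hc (fun _ => W) rfl (fun i hi => absurd hi (Nat.not_lt_zero i))
    simpa using h1
  | succ N ih =>
    have h1 : ((t+1)^2)^(N+1) * c = (t+1)^2 * (((t+1)^2)^N * c) := by
      rw [pow_succ]
      ring
    rw [h1]
    refine refine_col h (x := x) (t := t) fun W' hW' => ih W' fun Wc h0 hWc => ?_
    refine hc (fun i => Nat.casesOn i W Wc) rfl ?_
    intro i hi
    rcases i with _ | i
    · show Ref r x t W (Wc 0)
      rw [h0]
      exact hW'
    · exact hWc i (by omega)

end Pool.Agent.Lib.MP_b0c2b5_co.LS
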