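import Pool.Agent.Lib.MP_b0c2b5_co.LS.Small

/-! The scale of the out-extent is a strictly monotone function. -/

set_option autoImplicit false

namespace Pool.Agent.Lib.MP_b0c2b5_co.LS

universe u

variable {V : Type u} {r lt : V → V → Prop}

/-- PROOF. For `v ∈ U` put `b v = E v - x v`, `a v = x v - S v` (both `≥ 1` by `Mono` on `W`), `β v = Nat.log 2 (b v)`, so `2^β ≤ b < 2^(β+1)`, and
`β v < L` because `b v < 2^L` (`E v` is a value of `x` on `W`). Let `H = {v ∈ U | 2 x v ≤ E v + S v}` (i.e. `a v ≤ b v`).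
(1) For every `m` the set `Y m = {v ∈ H | β v = m}` has `ColOn r (Y m) (10*k)` by `small_scale` (out: the far neighbour at distance `b v ∈ [2^m, 2^(m+1))`; in: a neighbour `u ∈ Wb` has `S v ≤ x u < x v`, distance at most `a v ≤ b v < 2^(m+1)`).
Choose the colourings `f m`.
(2) Let `v, w ∈ H`, `r v w`, `d = x w - x v ≥ 1`. `S w ≤ x v` (as `v ∈ U ⊆ Wb` is an in-neighbour of `w`), so `b w ≥ a w ≥ d`; and `E v < E w` gives `b w > b v - d`. So `2 b w > b v`, hence `β v ≤ β w + 1`.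
(3) Classes: `q v = (β v % 2) * (10*k) + f (β v) v < 20*k` (`ColOn.classes` with `m := 20*k`). In a class, for an arc `v → w`: `β v ≤ β w + 1` and the same parity give `β v ≤ β w`; if equal, both are in `Y (β v)` with the same
colour, impossible; so `β v < β w`. Apply `hrec` to the class with `y = β`. (If `k = 0` then `Y m = ∅` for all `m`, fine: `q v < 20*k` follows from `f (β v) v < 10*k`.) -/
theorem scale_half {W Wb U : Set V} {x E S : V → ℕ} {L k F : ℕ} (hthin : Thin r W k)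
    (hWb : Wb ⊆ W) (hU : U ⊆ Wb) (hx : Mono r W x) (hxL : ∀ v ∈ W, x v < 2^L) (hE : IsFar r x Wb U E)
    (hS : ∀ v ∈ U, (∃ z ∈ Wb, r z v ∧ x z = S v) ∧ ∀ u ∈ Wb, r u v → S v ≤ x u)
    (hmono : ∀ v ∈ U, ∀ w ∈ U, r v w → E v < E w)
    (hrec : ∀ U' ⊆ U, ∀ y : V → ℕ, Mono r U' y → (∀ v ∈ U', y v < L) → ColOn r U' F) :
    ColOn r {v | v ∈ U ∧ 2 * x v ≤ E v + S v} (20 * k * F) := by
  have hUW : ∀ v ∈ U, v ∈ W := fun v hv => hWb (hU hv)
  have hxE : ∀ v ∈ U, x v < E v ∧ E v < 2^L := by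
    intro v hv
    obtain ⟨⟨z, hz, hvz, hxz⟩, -⟩ := hE v hv
    rw [← hxz]
    exact ⟨hx v (hUW v hv) z (hWb hz) hvz, hxL z (hWb hz)⟩
  obtain ⟨β, hβ⟩ : ∃ β : V → ℕ, ∀ v, β v = Nat.log 2 (E v - x v) := ⟨_, fun _ => rfl⟩
  have hβL : ∀ v ∈ U, β v < L := by
    intro v hv
    have h1 := hxE v hv
    rw [hβ]
    exact Nat.log_lt_of_lt_pow (by omega) (by omega)
  have hlow : ∀ v ∈ U, 2 ^ β v ≤ E v - x v := by
    intro v hv
    have h1 := hxE v hv
    rw [hβ]
    exact Nat.pow_log_le_self 2 (by omega)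
  have hupp : ∀ v, E v - x v < 2 ^ (β v + 1) := by
    intro v
    rw [hβ]
    exact Nat.lt_pow_succ_log_self (by norm_num) _
  have hY : ∀ m : ℕ, ColOn r {v | (v ∈ U ∧ 2 * x v ≤ E v + S v) ∧ β v = m} (10 * k) := by
    intro m
    refine small_scale (x := x) (m := m) hthin hWb (fun v hv => hUW v hv.1.1) ?_ ?_
    · rintro v ⟨⟨hv, -⟩, rfl⟩
      obtain ⟨⟨z, hz, hvz, hxz⟩, -⟩ := hE v hv
      have h1 := hxE v hv
      have h2 := hlow v hv
      have h3 := hupp v
      exact ⟨z, hz, hvz, by omega, by omega⟩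
    · rintro v ⟨⟨hv, hv2⟩, rfl⟩ u hu huv
      have h1 := hxE v hv
      have h3 := hupp v
      have h4 := (hS v hv).2 u hu huv
      have h5 := hx u (hWb hu) v (hUW v hv) huv
      exact ⟨by omega, by omega⟩
  choose f hf hf2 using hY
  have hstep : ∀ v ∈ U, ∀ w ∈ U, 2 * x w ≤ E w + S w → r v w → β v ≤ β w + 1 := by
    intro v hv w hw hw2 hvw
    have h1 := hxE v hv
    have h2 := hxE w hw
    have h3 := (hS w hw).2 v (hU hv) hvw
    have h4 := hmono v hv w hw hvw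
    have h5 := hx v (hUW v hv) w (hUW w hw) hvw
    have h6 : Nat.log 2 (E v - x v) ≤ Nat.log 2 ((E w - x w) * 2) :=
      Nat.log_mono_right (by omega)
    rw [Nat.log_mul_base (by norm_num) (by omega)] at h6
    rw [hβ, hβ]
    exact h6
  refine ColOn.classes (fun v => (β v % 2) * (10 * k) + f (β v) v) ?_ ?_
  · rintro v hv
    have h1 := hf (β v) v ⟨hv, rfl⟩
    rcases Nat.mod_two_eq_zero_or_one (β v) with h | h
    · simp only [h]
      omega
    · simp only [h]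
      omega
  · intro i _
    refine hrec _ (fun v hv => hv.1.1) β ?_ fun v hv => hβL v hv.1.1
    rintro v ⟨hv, hqv⟩ w ⟨hw, hqw⟩ hvw
    have h1 := hf (β v) v ⟨hv, rfl⟩
    have h2 := hf (β w) w ⟨hw, rfl⟩
    have h3 := hstep v hv.1 w hw.1 hw.2 hvw
    have h4 : (β v % 2) * (10 * k) + f (β v) v = (β w % 2) * (10 * k) + f (β w) w :=
      hqv.trans hqw.symm
    have h5 : β v % 2 = β w % 2 ∧ f (β v) v = f (β w) w := by
      rcases Nat.mod_two_eq_zero_or_one (β v) with h | h <;>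
        rcases Nat.mod_two_eq_zero_or_one (β w) with h' | h' <;> rw [h, h'] at h4 ⊢ <;>
        constructor <;> omega
    rcases lt_or_eq_of_le (show β v ≤ β w by omega) with h6 | h6
    · exact h6
    · exact absurd (by rw [h5.2, h6]) (hf2 (β v) v ⟨hv, rfl⟩ w ⟨hw, h6.symm⟩ hvw)

end Pool.Agent.Lib.MP_b0c2b5_co.LS
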