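import Pool.Agent.Lib.MP_b0c2b5_co.LS.ScaleA

/-! Both directions. -/

set_option autoImplicit false

namespace Pool.Agent.Lib.MP_b0c2b5_co.LS

universe u

variable {V : Type u} {r lt : V → V → Prop}

/-- both halves. PROOF. `{v ∈ U | 2 x v ≤ E v + S v}` by `scale_half`; the rest is contained in `{v ∈ U | E v + S v ≤ 2 x v}`: apply `scale_half` to
`rev r`, `x' = 2^L - 1 - x`, `E' = 2^L - 1 - S`, `S' = 2^L - 1 - E` (all values of `x` on `W` are at most `2^L - 1`, `E v` and `S v` are such values; outside `W` put nothing: `Mono`, `IsFar` only speak about `W`, `Wb`, `U`), `hthin.flip`,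
`ColOn.rev`. Then `ColOn.union` and `ColOn.mono`. The hypothesis `hrec` for `rev r` and `y`: apply `hrec` to `fun v => L - 1 - y v`. -/
theorem scale_full {W Wb U : Set V} {x E S : V → ℕ} {L k F : ℕ} (hthin : Thin r W k)
    (hWb : Wb ⊆ W) (hU : U ⊆ Wb) (hx : Mono r W x) (hxL : ∀ v ∈ W, x v < 2^L) (hE : IsFar r x Wb U E)
    (hS : ∀ v ∈ U, (∃ z ∈ Wb, r z v ∧ x z = S v) ∧ ∀ u ∈ Wb, r u v → S v ≤ x u)
    (hmonoE : ∀ v ∈ U, ∀ w ∈ U, r v w → E v < E w) (hmonoS : ∀ v ∈ U, ∀ w ∈ U, r v w → S v < S w)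
    (hrec : ∀ U' ⊆ U, ∀ y : V → ℕ, Mono r U' y → (∀ v ∈ U', y v < L) → ColOn r U' F) :
    ColOn r U (40 * k * F) := by
  have h1 := scale_half hthin hWb hU hx hxL hE hS hmonoE hrec
  have hxW : ∀ v ∈ W, x v ≤ 2^L - 1 := fun v hv => by
    have := hxL v hv
    omega
  have hUW : U ⊆ W := hU.trans hWb
  have hEv : ∀ v ∈ U, E v ≤ 2^L - 1 := fun v hv => by
    obtain ⟨⟨z, hz, _, hz2⟩, _⟩ := hE v hv
    rw [← hz2]
    exact hxW z (hWb hz)
  have hSv : ∀ v ∈ U, S v ≤ 2^L - 1 := fun v hv => by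
    obtain ⟨⟨z, hz, _, hz2⟩, _⟩ := hS v hv
    rw [← hz2]
    exact hxW z (hWb hz)
  have h2 := scale_half (r := rev r) (W := W) (Wb := Wb) (U := U) (x := fun v => 2^L - 1 - x v)
    (E := fun v => 2^L - 1 - S v) (S := fun v => 2^L - 1 - E v) (L := L) (k := k) (F := F)
    hthin.flip hWb hU ?_ ?_ ?_ ?_ ?_ ?_
  · refine (h1.union h2.rev).mono ?_ (le_of_eq (by ring))
    intro v hv
    have ha := hEv v hv
    have hb := hSv v hv
    have hc := hxW v (hUW hv)
    by_cases h3 : 2 * x v ≤ E v + S v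
    · exact Or.inl ⟨hv, h3⟩
    · refine Or.inr ⟨hv, ?_⟩
      show 2 * (2^L - 1 - x v) ≤ (2^L - 1 - S v) + (2^L - 1 - E v)
      omega
  · intro u hu v hv huv
    have ha := hx v hv u hu huv
    have hb := hxW u hu
    show 2^L - 1 - x u < 2^L - 1 - x v
    omega
  · intro v hv
    have := hxL v hv
    show 2^L - 1 - x v < 2^L
    omega
  · intro v hv
    obtain ⟨⟨z, hz, hz1, hz2⟩, h3⟩ := hS v hv
    refine ⟨⟨z, hz, hz1, ?_⟩, fun w hw hvw => ?_⟩
    · show 2^L - 1 - x z = 2^L - 1 - S v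
      rw [hz2]
    · have := h3 w hw hvw
      show 2^L - 1 - x w ≤ 2^L - 1 - S v
      omega
  · intro v hv
    obtain ⟨⟨z, hz, hz1, hz2⟩, h3⟩ := hE v hv
    refine ⟨⟨z, hz, hz1, ?_⟩, fun w hw hvw => ?_⟩
    · show 2^L - 1 - x z = 2^L - 1 - E v
      rw [hz2]
    · have := h3 w hw hvw
      show 2^L - 1 - E v ≤ 2^L - 1 - x w
      omega
  · intro v hv w hw hvw
    have ha := hmonoS w hw v hv hvw
    have hb := hSv v hv
    show 2^L - 1 - S v < 2^L - 1 - S w
    omega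
  · intro U' hU' y hy hyL
    refine (hrec U' hU' (fun v => L - 1 - y v) ?_ ?_).rev
    · intro u hu v hv huv
      have ha := hy v hv u hu huv
      have hb := hyL u hu
      show L - 1 - y u < L - 1 - y v
      omega
    · intro v hv
      have := hyL v hv
      show L - 1 - y v < L
      omega

end Pool.Agent.Lib.MP_b0c2b5_co.LS
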