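import Pool.Agent.Lib.MP_b0c2b5_co.LS.Defs

/-! The signature colouring: all but few of the functions `E j` increase along the arcs of a class. -/

set_option autoImplicit false

namespace Pool.Agent.Lib.MP_b0c2b5_co.LS

universe u

variable {V : Type u} {r lt : V → V → Prop}

/-- a nested comb with `q` spine vertices below `v`: a path `p 0 → ... → p q = v` in `U`, sets `Z i` (`i < q`) of `t`
out-neighbours of `p i` in `W`, all with `x ≥ y`, and `x` on `Z i` is at least `x` on `Z l` for `i < l` -/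
def Cmb (r : V → V → Prop) (x : V → ℕ) (t : ℕ) (W U : Set V) (q y : ℕ) (v : V) : Prop :=
  ∃ (p : ℕ → V) (Z : ℕ → Finset V), p q = v ∧ (∀ i < q, r (p i) (p (i+1))) ∧ (∀ i ≤ q, p i ∈ U) ∧
    (∀ i < q, (Z i).card = t ∧ ∀ z ∈ Z i, z ∈ W ∧ r (p i) z ∧ y ≤ x z) ∧
    (∀ i l, i < l → l < q → ∀ z ∈ Z i, ∀ z' ∈ Z l, x z' ≤ x z)

/-- PROOF: constant path, no leaves. -/
theorem Cmb.zero {x : V → ℕ} {t : ℕ} {W U : Set V} {y : ℕ} {v : V} (hv : v ∈ U) : Cmb r x t W U 0 y v :=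
  ⟨fun _ => v, fun _ => ∅, rfl, fun i hi => absurd hi (Nat.not_lt_zero i), fun _ _ => hv,
    fun i hi => absurd hi (Nat.not_lt_zero i), fun _ l _ hl => absurd hl (Nat.not_lt_zero l)⟩

/-- a weaker lower bound for the leaves -/
theorem Cmb.anti {x : V → ℕ} {t : ℕ} {W U : Set V} {q y y' : ℕ} {v : V} (h : Cmb r x t W U q y v) (hy : y' ≤ y) :
    Cmb r x t W U q y' v := by
  obtain ⟨p, Z, h1, h2, h3, h4, h5⟩ := h
  exact ⟨p, Z, h1, h2, h3, fun i hi => ⟨(h4 i hi).1, fun z hz =>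
    ⟨((h4 i hi).2 z hz).1, ((h4 i hi).2 z hz).2.1, hy.trans ((h4 i hi).2 z hz).2.2⟩⟩, h5⟩

/-- one more spine vertex. PROOF. Path `fun i => if i ≤ q then p i else w`, leaves `fun i => if i = q then Z₀ else Z i`. New pairs `(i, q)`: for `z ∈ Z i`,
`z' ∈ Z₀`: `x z' ≤ y₀ ≤ x z`. -/
theorem Cmb.extend {x : V → ℕ} {t : ℕ} {W U : Set V} {q y₀ y : ℕ} {v w : V} (h : Cmb r x t W U q y₀ v) (hw : w ∈ U)
    (hvw : r v w) (Z₀ : Finset V) (hZ : Z₀.card = t) (hZ₀ : ∀ z ∈ Z₀, z ∈ W ∧ r v z ∧ y ≤ x z ∧ x z ≤ y₀) (hy : y ≤ y₀) :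
    Cmb r x t W U (q+1) y w := by
  obtain ⟨p, Z, h1, h2, h3, h4, h5⟩ := h
  refine ⟨fun i => if i ≤ q then p i else w, fun i => if i = q then Z₀ else Z i, ?_, ?_, ?_, ?_, ?_⟩
  · simp
  · intro i hi
    have hi1 : i ≤ q := by omega
    simp only [hi1, if_true]
    by_cases hi2 : i + 1 ≤ q
    · simp only [hi2, if_true]
      exact h2 i (by omega)
    · simp only [hi2, if_false]
      have hi3 : i = q := by omega
      subst hi3
      rw [h1]
      exact hvw
  · intro i _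
    simp only
    split_ifs with hi1
    · exact h3 i hi1
    · exact hw
  · intro i hi
    have hi1 : i ≤ q := by omega
    simp only [hi1, if_true]
    by_cases hi2 : i = q
    · subst hi2
      simp only [if_true, h1]
      exact ⟨hZ, fun z hz => ⟨(hZ₀ z hz).1, (hZ₀ z hz).2.1, (hZ₀ z hz).2.2.1⟩⟩
    · simp only [hi2, if_false]
      have h6 := h4 i (by omega)
      exact ⟨h6.1, fun z hz => ⟨(h6.2 z hz).1, (h6.2 z hz).2.1, hy.trans (h6.2 z hz).2.2⟩⟩
  · intro i l hil hl z hz z' hz'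
    have hiq : i ≠ q := by omega
    simp only [hiq, if_false] at hz
    by_cases hlq : l = q
    · simp only [hlq, if_true] at hz'
      exact (hZ₀ z' hz').2.2.2.trans ((h4 i (by omega)).2 z hz).2.2
    · simp only [hlq, if_false] at hz'
      exact h5 i l hil (by omega) z hz z' hz'

/-- a nested comb with a last set of leaves is a comb. PROOF. `p`, and `Z` with `Z₀` at `q`, where `s = q + 1`. For `i < l ≤ q` and `z` a leaf of `p i`:
if `r z (p l)` then, for any leaf `z'` of `p l` (there is one, `1 ≤ t`), `x z < x (p l) < x z' ≤ x z` (`Mono r W x`; all points are in `W`); if `r z z'` with `z'` a leaf of `p l`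
then `x z < x z' ≤ x z`. (For `l = q` use `x z' ≤ y₀ ≤ x z`.) -/
theorem comb_of_cmb {x : V → ℕ} {t : ℕ} (ht : 1 ≤ t) {W U : Set V} (hUW : U ⊆ W) (hx : Mono r W x) {q y₀ : ℕ} {v : V}
    (h : Cmb r x t W U q y₀ v) (Z₀ : Finset V) (hZ : Z₀.card = t) (hZ₀ : ∀ z ∈ Z₀, z ∈ W ∧ r v z ∧ x z ≤ y₀) :
    UpComb r (q+1) t := by
  obtain ⟨p, Z, h1, h2, h3, h4, h5⟩ := h
  have h6 : ∀ i < q + 1, (if i = q then Z₀ else Z i).card = t ∧
      ∀ z ∈ (if i = q then Z₀ else Z i), z ∈ W ∧ r (p i) z := by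
    intro i hi
    by_cases hi2 : i = q
    · subst hi2
      simp only [if_true, h1]
      exact ⟨hZ, fun z hz => ⟨(hZ₀ z hz).1, (hZ₀ z hz).2.1⟩⟩
    · simp only [hi2, if_false]
      have h6 := h4 i (by omega)
      exact ⟨h6.1, fun z hz => ⟨(h6.2 z hz).1, (h6.2 z hz).2.1⟩⟩
  have h7 : ∀ i l, i < l → l < q + 1 → ∀ z ∈ (if i = q then Z₀ else Z i),
      ∀ z' ∈ (if l = q then Z₀ else Z l), x z' ≤ x z := by
    intro i l hil hl z hz z' hz'
    have hiq : i ≠ q := by omega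
    simp only [hiq, if_false] at hz
    by_cases hlq : l = q
    · simp only [hlq, if_true] at hz'
      exact (hZ₀ z' hz').2.2.trans ((h4 i (by omega)).2 z hz).2.2
    · simp only [hlq, if_false] at hz'
      exact h5 i l hil (by omega) z hz z' hz'
  refine ⟨p, fun i => if i = q then Z₀ else Z i, fun i hi => h2 i (by omega),
    fun i hi => ⟨(h6 i hi).1, fun z hz => ((h6 i hi).2 z hz).2⟩, ?_⟩
  intro i l hil hl z hz
  have hzW : z ∈ W := ((h6 i (by omega)).2 z hz).1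
  refine ⟨fun hr => ?_, fun z' hz' hr => ?_⟩
  · have hne : (if l = q then Z₀ else Z l).Nonempty := by
      rw [← Finset.card_pos, (h6 l hl).1]
      omega
    obtain ⟨z', hz'⟩ := hne
    have hpl : p l ∈ W := hUW (h3 l (by omega))
    have h8 := hx z hzW (p l) hpl hr
    have h9 := (h6 l hl).2 z' hz'
    have h10 := hx (p l) hpl z' h9.1 h9.2
    have h11 := h7 i l hil hl z hz z' hz'
    omega
  · have h9 := (h6 l hl).2 z' hz'
    have h8 := hx z hzW z' h9.1 hr
    have h11 := h7 i l hil hl z hz z' hz'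
    omega

end Pool.Agent.Lib.MP_b0c2b5_co.LS
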