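import Pool.Agent.Lib.MP_b0c2b5_co.LS.SigA

/-! The signature lemma. -/

set_option autoImplicit false

namespace Pool.Agent.Lib.MP_b0c2b5_co.LS

universe u

variable {V : Type u} {r lt : V → V → Prop}

/-- THE SIGNATURE LEMMA. PROOF. First `E (j+1) v ≤ E j v` for `v ∈ U`, `j < N` (a shell is nonempty as `1 ≤ t`), so `E` is non-increasing in `j` on `[0, N]`.
Let `Q a j v := Cmb r x t W U a (E j v) v`. For `v ∈ U`: `Q 0 j v` always; `Q a j v → Q a j' v` for `j ≤ j' ≤ N` (`Cmb.anti`);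
`¬ Q (s-1) j v` for `j < N`, because the shell `Z₀` between `E (j+1) v` and `E j v` and `comb_of_cmb` would give `UpComb r s t`.
KEY: if `v, w ∈ U`, `r v w`, `1 ≤ j < N`, `E j w ≤ E j v` and `Q a (j-1) v`, then `Q (a+1) j w`
(`Cmb.extend` with `y₀ = E (j-1) v`, `y = E j w`, `Z₀` the shell between `E j v` and `E (j-1) v`).
Signature of `v`: the finset `{(a,j) ∈ range s ×ˢ range N | Q a j v}` (classical filter), coded as a number `< 2^(s*N)`
(e.g. an injection from `(range s ×ˢ range N).powerset`, which has `2^(s*N)` elements, into `Fin (2^(s*N))`, or the number `∑ 2^(a*N+j)`); vertices outside `U` get the code of `∅`.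
`J c`: for the finset `A` with code `c`: `J c = {j ∈ range N | 1 ≤ j, ∃ a < s - 1 (so a+1 < s), (a+1,j) ∈ A ∧ (a+1,j-1) ∉ A}`; to have the bound for the cardinality for all `c`, put `J c = ∅` if it has more than `s-1` elements; for `c = sig v`, `v ∈ U`, it has
at most `s-1` elements: for every `a+1 ∈ [1,s-1]` at most one `j` (monotonicity in `j`).
Now let `v, w ∈ U`, `r v w`, `sig v = sig w`, `1 ≤ j < N`, `j ∉ J (sig v)`, and suppose `E j w ≤ E j v`. Let `a` be the largest `a ≤ s-1` with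
`Q a (j-1) v` (`Nat.findGreatest`; `Q 0` holds, `Q (s-1)` does not, so `a + 1 ≤ s - 1` (in particular `s ≥ 2`)). By KEY `Q (a+1) j w`, so `Q (a+1) j v` (same signature, `a + 1 < s`, `j < N`), and `¬ Q (a+1) (j-1) v`.
So `j ∈ J`, contradiction. For `s = 1`: `Q 0` true and `Q (s-1) = Q 0` false is a contradiction for any `v ∈ U` when `0 < N`. -/
theorem signature {s t N : ℕ} (hs : 1 ≤ s) (ht : 1 ≤ t) (hU : ¬ UpComb r s t) {W U : Set V} (hUW : U ⊆ W)
    {x : V → ℕ} (hx : Mono r W x) (E : ℕ → V → ℕ)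
    (shell : ∀ v ∈ U, ∀ j < N, ∃ Z : Finset V, Z.card = t ∧ ∀ z ∈ Z, z ∈ W ∧ r v z ∧ E (j+1) v ≤ x z ∧ x z ≤ E j v) :
    ∃ (sig : V → ℕ) (J : ℕ → Finset ℕ), (∀ v, sig v < 2^(s*N)) ∧ (∀ c, (J c).card ≤ s - 1) ∧
      ∀ v ∈ U, ∀ w ∈ U, r v w → sig v = sig w → ∀ j, 1 ≤ j → j < N → j ∉ J (sig v) → E j v < E j w := by
  classical
  have hE1 : ∀ v ∈ U, ∀ j < N, E (j+1) v ≤ E j v := by
    intro v hv j hj
    obtain ⟨Z, hZ, hZ'⟩ := shell v hv j hj
    obtain ⟨z, hz⟩ := Finset.card_pos.1 (show 0 < Z.card by omega)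
    exact (hZ' z hz).2.2.1.trans (hZ' z hz).2.2.2
  have hE : ∀ v ∈ U, ∀ j j', j ≤ j' → j' ≤ N → E j' v ≤ E j v := by
    intro v hv j j' hjj'
    induction j', hjj' using Nat.le_induction with
    | base => exact fun _ => le_rfl
    | succ j' _ ih => exact fun h => (hE1 v hv j' (by omega)).trans (ih (by omega))
  have Qmono : ∀ a, ∀ v ∈ U, ∀ j j', j ≤ j' → j' ≤ N → Cmb r x t W U a (E j v) v →
      Cmb r x t W U a (E j' v) v := fun a v hv j j' h1 h2 h => h.anti (hE v hv j j' h1 h2)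
  have Qlast : ∀ v ∈ U, ∀ j < N, ¬ Cmb r x t W U (s-1) (E j v) v := by
    intro v hv j hj h
    obtain ⟨Z, hZ, hZ'⟩ := shell v hv j hj
    have h1 := comb_of_cmb ht hUW hx h Z hZ fun z hz =>
      ⟨(hZ' z hz).1, (hZ' z hz).2.1, (hZ' z hz).2.2.2⟩
    rw [Nat.sub_add_cancel hs] at h1
    exact hU h1
  have key : ∀ a, ∀ v ∈ U, ∀ w ∈ U, r v w → ∀ j, 1 ≤ j → j < N → E j w ≤ E j v →
      Cmb r x t W U a (E (j-1) v) v → Cmb r x t W U (a+1) (E j w) w := by
    intro a v hv w hw hvw j hj1 hjN hle h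
    obtain ⟨Z, hZ, hZ'⟩ := shell v hv (j-1) (by omega)
    rw [Nat.sub_add_cancel hj1] at hZ'
    refine h.extend hw hvw Z hZ (fun z hz => ⟨(hZ' z hz).1, (hZ' z hz).2.1,
      hle.trans (hZ' z hz).2.2.1, (hZ' z hz).2.2.2⟩) ?_
    exact hle.trans (hE v hv (j-1) j (by omega) (by omega))
  -- the code of a signature
  let P : Finset (Finset (ℕ × ℕ)) := (Finset.range s ×ˢ Finset.range N).powerset
  have hP : P.card = 2^(s*N) := by
    rw [Finset.card_powerset, Finset.card_product, Finset.card_range, Finset.card_range]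
  let S : V → Finset (ℕ × ℕ) := fun v => (Finset.range s ×ˢ Finset.range N).filter
    fun q => Cmb r x t W U q.1 (E q.2 v) v
  have hS : ∀ v, S v ∈ P := fun v => Finset.mem_powerset.2 (Finset.filter_subset _ _)
  have hmS : ∀ v a j, (a, j) ∈ S v ↔ (a < s ∧ j < N) ∧ Cmb r x t W U a (E j v) v := by
    intro v a j
    simp only [S, Finset.mem_filter, Finset.mem_product, Finset.mem_range]
  let dec : ℕ → Finset (ℕ × ℕ) := fun c => if h : c < P.card then (P.equivFin.symm ⟨c, h⟩).1 else ∅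
  let sig : V → ℕ := fun v => (P.equivFin ⟨S v, hS v⟩ : ℕ)
  have hsig : ∀ v, dec (sig v) = S v := by
    intro v
    have h1 : sig v < P.card := (P.equivFin ⟨S v, hS v⟩).2
    show (if h : sig v < P.card then (P.equivFin.symm ⟨sig v, h⟩).1 else ∅) = S v
    rw [dif_pos h1]
    have h2 : (⟨sig v, h1⟩ : Fin P.card) = P.equivFin ⟨S v, hS v⟩ := rfl
    rw [h2, Equiv.symm_apply_apply]
  let T : ℕ → Finset ℕ := fun c => (Finset.range N).filter fun j =>
    1 ≤ j ∧ ∃ a, a + 1 < s ∧ (a + 1, j) ∈ dec c ∧ (a + 1, j - 1) ∉ dec c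
  have hT : ∀ c j, j ∈ T c ↔ j < N ∧ 1 ≤ j ∧ ∃ a, a + 1 < s ∧ (a + 1, j) ∈ dec c ∧
      (a + 1, j - 1) ∉ dec c := by
    intro c j
    simp only [T, Finset.mem_filter, Finset.mem_range]
  have hTc : ∀ v ∈ U, (T (sig v)).card ≤ s - 1 := by
    intro v hv
    have h1 : ∀ j ∈ T (sig v), ∃ a, a + 1 < s ∧ (a + 1, j) ∈ S v ∧ (a + 1, j - 1) ∉ S v := by
      intro j hj
      have := ((hT _ _).1 hj).2.2
      rwa [hsig] at this
    choose! f hf using h1
    rw [← Finset.card_range (s - 1)]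
    refine Finset.card_le_card_of_injOn f (fun j hj => ?_) ?_
    · rw [Finset.coe_range, Set.mem_Iio]
      have := (hf j hj).1
      omega
    · have hne : ∀ j ∈ T (sig v), ∀ j' ∈ T (sig v), j < j' → f j ≠ f j' := by
        intro j hj j' hj' hjj' he
        have h2 := (hf j hj).2.1
        have h3 := (hf j' hj').2.2
        rw [← he] at h3
        have h4 := (hT _ _).1 hj'
        apply h3
        rw [hmS] at h2 ⊢
        exact ⟨⟨h2.1.1, by omega⟩, Qmono _ v hv j (j' - 1) (by omega) (by omega) h2.2⟩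
      intro j hj j' hj' he
      rcases lt_trichotomy j j' with h | h | h
      · exact absurd he (hne j hj j' hj' h)
      · exact h
      · exact absurd he.symm (hne j' hj' j hj h)
  refine ⟨sig, fun c => if (T c).card ≤ s - 1 then T c else ∅, ?_, ?_, ?_⟩
  · intro v
    rw [← hP]
    exact (P.equivFin ⟨S v, hS v⟩).2
  · intro c
    show (if (T c).card ≤ s - 1 then T c else ∅).card ≤ s - 1
    split_ifs with h
    · exact h
    · rw [Finset.card_empty]; exact Nat.zero_le _
  · intro v hv w hw hvw hvw' j hj1 hjN hjJ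
    have hjT : j ∉ T (sig v) := by
      have h1 : (if (T (sig v)).card ≤ s - 1 then T (sig v) else ∅) = T (sig v) := if_pos (hTc v hv)
      intro h2
      apply hjJ
      show j ∈ (if (T (sig v)).card ≤ s - 1 then T (sig v) else ∅)
      rw [h1]; exact h2
    have hSS : S v = S w := by rw [← hsig v, hvw', hsig w]
    by_contra hcon
    have hle : E j w ≤ E j v := not_lt.1 hcon
    have hall : ∀ a, a ≤ s - 1 → Cmb r x t W U a (E (j-1) v) v := by
      intro a
      induction a with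
      | zero => exact fun _ => Cmb.zero hv
      | succ a ih =>
        intro ha
        have h1 := key a v hv w hw hvw j hj1 hjN hle (ih (by omega))
        have h2 : (a + 1, j) ∈ S v := by
          rw [hSS, hmS]
          exact ⟨⟨by omega, hjN⟩, h1⟩
        by_contra h3
        apply hjT
        rw [hT, hsig]
        refine ⟨hjN, hj1, a, by omega, h2, fun h4 => h3 ?_⟩
        exact ((hmS _ _ _).1 h4).2
    exact Qlast v hv (j-1) (by omega) (hall (s-1) le_rfl)

end Pool.Agent.Lib.MP_b0c2b5_co.LS
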