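import Pool.Agent.Lib.MP_b0c2b5_co.LS.Defs

/-! In a thin digraph the vertices of one scale have small chromatic number. -/

set_option autoImplicit false

namespace Pool.Agent.Lib.MP_b0c2b5_co.LS

universe u

variable {V : Type u} {r : V → V → Prop}

/-- PROOF. Let `c v = x v / 2^m`. For `v ∈ Y` choose `ζ v` by `hout`; `c (ζ v) - c v ∈ {1, 2}` (from `x v + 2^m ≤ x (ζ v) < x v + 2^(m+1)`);
for `u ∈ Wb`, `r u v`: `c v - c u ∈ {0, 1, 2}`. Classes (`ColOn.classes` with `m := 10`): `q v = c v % 5 + 5 * (c (ζ v) - c v - 1)`. In the class of `i`, with `θ = i % 5` and `δ = i / 5 + 1 ∈ {1, 2}`: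
`B = {u ∈ Wb | c u % 5 = (θ + δ) % 5}`, `C` the class. `OutCov r B C`: `ζ v ∈ B`; for `u ∈ B`, `v ∈ C`: `r u v` would give
`c v - c u ∈ {0,1,2}` and `c u ≡ θ + δ = c v + δ (mod 5)`, impossible because `δ + {0,1,2} ⊆ {1,..,4}`; and `u ≠ v` because `θ + δ ≢ θ`. -/
theorem small_scale {W Wb Y : Set V} {x : V → ℕ} {k m : ℕ} (hthin : Thin r W k) (hWb : Wb ⊆ W) (hY : Y ⊆ W)
    (hout : ∀ v ∈ Y, ∃ z ∈ Wb, r v z ∧ x v + 2^m ≤ x z ∧ x z < x v + 2^(m+1))
    (hin : ∀ v ∈ Y, ∀ u ∈ Wb, r u v → x u ≤ x v ∧ x v < x u + 2^(m+1)) : ColOn r Y (10 * k) := by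
  classical
  have hP : 0 < 2 ^ m := Nat.pos_of_ne_zero (by positivity)
  have hP2 : 2 ^ (m + 1) = 2 * 2 ^ m := by ring
  rw [hP2] at hout hin
  generalize 2 ^ m = P at hP hout hin
  have hz : ∀ v : V, ∃ z : V, v ∈ Y → z ∈ Wb ∧ r v z ∧ x v + P ≤ x z ∧ x z < x v + 2 * P := by
    intro v
    by_cases hv : v ∈ Y
    · obtain ⟨z, hz⟩ := hout v hv
      exact ⟨z, fun _ => hz⟩
    · exact ⟨v, fun h => absurd h hv⟩
  choose ζ hζ using hz
  have hc1 : ∀ v ∈ Y, x v / P + 1 ≤ x (ζ v) / P ∧ x (ζ v) / P ≤ x v / P + 2 := by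
    intro v hv
    obtain ⟨_, _, h1, h2⟩ := hζ v hv
    constructor
    · rw [← Nat.add_div_right _ hP]
      exact Nat.div_le_div_right h1
    · have h3 : x v / P + 2 = (x v + P * 2) / P := by
        rw [Nat.add_mul_div_left _ _ hP]
      rw [h3]
      exact Nat.div_le_div_right (by omega)
  have hc2 : ∀ v ∈ Y, ∀ u ∈ Wb, r u v → x u / P ≤ x v / P ∧ x v / P ≤ x u / P + 2 := by
    intro v hv u hu huv
    obtain ⟨h1, h2⟩ := hin v hv u hu huv
    refine ⟨Nat.div_le_div_right h1, ?_⟩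
    have h3 : x u / P + 2 = (x u + P * 2) / P := by
      rw [Nat.add_mul_div_left _ _ hP]
    rw [h3]
    exact Nat.div_le_div_right (by omega)
  refine ColOn.classes (fun v => x v / P % 5 + 5 * (x (ζ v) / P - x v / P - 1)) ?_ ?_
  · intro v hv
    have := hc1 v hv
    omega
  · intro i hi
    refine hthin {u | u ∈ Wb ∧ x u / P % 5 = (i % 5 + (i / 5 + 1)) % 5} _
      (fun u hu => hWb hu.1) (fun v hv => hY hv.1) (Or.inl ⟨?_, ?_⟩)
    · rintro v ⟨hv, hq⟩
      have h1 := hc1 v hv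
      refine ⟨ζ v, ⟨(hζ v hv).1, ?_⟩, (hζ v hv).2.1⟩
      omega
    · rintro v ⟨hv, hq⟩ u ⟨hu, hq2⟩
      have h1 := hc1 v hv
      refine ⟨fun huv => ?_, fun he => ?_⟩
      · have h2 := hc2 v hv u hu huv
        have h3 : x u / P = x v / P ∨ x u / P + 1 = x v / P ∨ x u / P + 2 = x v / P := by omega
        have h4 : x (ζ v) / P = x v / P + 1 ∨ x (ζ v) / P = x v / P + 2 := by omega
        rcases h4 with h4 | h4
        · have h5 : i % 5 = x v / P % 5 := by omega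
          have h6 : i / 5 = 0 := by omega
          rw [h5, h6] at hq2
          rcases h3 with h3 | h3 | h3 <;> omega
        · have h5 : i % 5 = x v / P % 5 := by omega
          have h6 : i / 5 = 1 := by omega
          rw [h5, h6] at hq2
          rcases h3 with h3 | h3 | h3 <;> omega
      · subst he
        omega

end Pool.Agent.Lib.MP_b0c2b5_co.LS
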