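import Pool.Agent.Lib.MP_b0c2b5_co.LS.RefineB
import Pool.Agent.Lib.MP_b0c2b5_co.LS.SigB
import Pool.Agent.Lib.MP_b0c2b5_co.LS.ScaleB

/-! The step lemma. -/

set_option autoImplicit false

namespace Pool.Agent.Lib.MP_b0c2b5_co.LS

universe u

variable {V : Type u} {r lt : V → V → Prop}

/-- A set of `2s-1` indices is not covered by two sets of at most `s-1` indices. -/
theorem exists_index {s : ℕ} (hs : 1 ≤ s) (A B : Finset ℕ) (hA : A.card ≤ s - 1) (hB : B.card ≤ s - 1) :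
    ∃ j, 1 ≤ j ∧ j < 2*s ∧ j ∉ A ∧ j ∉ B := by
  classical
  by_contra hcon
  push Not at hcon
  have h1 : Finset.Ico 1 (2*s) ⊆ A ∪ B := by
    intro j hj
    obtain ⟨h2, h3⟩ := Finset.mem_Ico.1 hj
    by_cases h4 : j ∈ A
    · exact Finset.mem_union_left _ h4
    · exact Finset.mem_union_right _ (hcon j h2 h3 h4)
  have h2 := (Finset.card_le_card h1).trans (Finset.card_union_le A B)
  rw [Nat.card_Ico] at h2
  omega

/-- the far functions on a finite type. PROOF: maximum of `x` over the finite nonempty set of out-neighbours. -/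
theorem exists_far [Finite V] {x : V → ℕ} {W U : Set V} (hne : ∀ v ∈ U, ∃ z ∈ W, r v z) :
    ∃ E : V → ℕ, IsFar r x W U E := by
  classical
  have h1 : ∀ v : V, ∃ e : ℕ, v ∈ U → (∃ z ∈ W, r v z ∧ x z = e) ∧ ∀ w ∈ W, r v w → x w ≤ e := by
    intro v
    by_cases hv : v ∈ U
    · obtain ⟨z, hz, hvz⟩ := hne v hv
      obtain ⟨a, ha, hmax⟩ := Set.exists_max_image {z | z ∈ W ∧ r v z} x (Set.toFinite _)
        ⟨z, hz, hvz⟩
      exact ⟨x a, fun _ => ⟨⟨a, ha.1, ha.2, rfl⟩, fun w hw hvw => hmax w ⟨hw, hvw⟩⟩⟩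
    · exact ⟨0, fun h => absurd h hv⟩
  choose E hE using h1
  exact ⟨E, fun v hv => hE v hv⟩

/-- a class at the end of a chain of refinements. `Wc 0 = W`, `U₀` = the vertices of `Wc (2s)` with an out-neighbour and an in-neighbour in `Wc (2s)`.
PROOF. All `Wc i` (`i ≤ 2s`) are decreasing and contained in `W`. Choose `E j` (`exists_far` for `Wc j`, `U₀`) and `T j` (`exists_far` for `rev r`, the function `x' v = 2^L - 1 - x v`, `Wc j`, `U₀`) for `j ≤ 2s`, and `S j v = 2^L - 1 - T j v`.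
Shells: `v ∈ U₀`, `j < 2s`: the far neighbour `w ∈ Wc (j+1)` of `v` (value `E (j+1) v`); `v, w ∈ Wc (j+1)`, `r v w`, so `Ref r x t (Wc j) (Wc (j+1))` gives `t` out-neighbours `z ∈ Wc j` with `x w ≤ x z`, and `x z ≤ E j v`.
In the same way for `rev r`, `x'`, `T`. Apply `signature` (N = 2s) to `r, x, E` (with `hUp`) and to `rev r, x', T` (with `hDn`): `sig, J, sig', J'`.
`ColOn.classes` twice (`sig`, then `sig'`). In a class `U` choose `j` by `exists_index` (for the values of `J`, `J'` on the class; if the class is empty everything is trivial). On `U`: `E j` and `S j` increase along arcs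
(for `rev r`: `T j w < T j v` for an arc `v → w`, so `S j v < S j w`; use `T j ≤ 2^L - 1`), so `scale_full` with `Wb = Wc j` gives `40 * k * F`. -/
theorem last_class [Finite V] (h : HO r lt) {s t : ℕ} (hs : 1 ≤ s) (ht : 1 ≤ t)
    (hUp : ¬ UpComb r s t) (hDn : ¬ UpComb (rev r) s t) {W : Set V} {x : V → ℕ} {L k F : ℕ}
    (hthin : Thin r W k) (hx : Mono r W x) (hxL : ∀ v ∈ W, x v < 2^L)
    (hrec : ∀ U ⊆ W, ∀ y : V → ℕ, Mono r U y → (∀ v ∈ U, y v < L) → ColOn r U F)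
    (Wc : ℕ → Set V) (hW0 : Wc 0 = W) (hR : ∀ i < 2*s, Ref r x t (Wc i) (Wc (i+1))) :
    ColOn r {v | v ∈ Wc (2*s) ∧ (∃ z ∈ Wc (2*s), r v z) ∧ ∃ z ∈ Wc (2*s), r z v}
      (2^(s*(2*s)) * (2^(s*(2*s)) * (40 * k * F))) := by
  classical
  obtain ⟨U₀, hU₀⟩ : ∃ U₀ : Set V, U₀ = {v | v ∈ Wc (2*s) ∧ (∃ z ∈ Wc (2*s), r v z) ∧
    ∃ z ∈ Wc (2*s), r z v} := ⟨_, rfl⟩
  rw [← hU₀]
  have hmem : ∀ v, v ∈ U₀ ↔ v ∈ Wc (2*s) ∧ (∃ z ∈ Wc (2*s), r v z) ∧ ∃ z ∈ Wc (2*s), r z v := by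
    intro v
    rw [hU₀]
    exact Iff.rfl
  -- the chain decreases
  have hdec : ∀ n, ∀ j, j + n ≤ 2*s → Wc (j + n) ⊆ Wc j := by
    intro n
    induction n with
    | zero => exact fun j _ => subset_rfl
    | succ n ih =>
      intro j hj
      exact (hR (j + n) (by omega)).1.trans (ih j (by omega))
  have hN : ∀ j ≤ 2*s, Wc (2*s) ⊆ Wc j := by
    intro j hj
    have h1 := hdec (2*s - j) j (by omega)
    rwa [Nat.add_sub_cancel' hj] at h1
  have hW : ∀ j ≤ 2*s, Wc j ⊆ W := by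
    intro j hj
    have h1 := hdec j 0 (by omega)
    rwa [zero_add, hW0] at h1
  have hUW : U₀ ⊆ W := fun v hv => hW (2*s) le_rfl ((hmem v).1 hv).1
  obtain ⟨x', hx'⟩ : ∃ x' : V → ℕ, ∀ v, x' v = 2^L - 1 - x v := ⟨_, fun _ => rfl⟩
  have hxm : Mono (rev r) W x' := by
    intro u hu v hv huv
    have h1 := hx v hv u hu huv
    have h2 := hxL u hu
    rw [hx', hx']
    omega
  -- the far functions
  have hE : ∀ j, ∃ E : V → ℕ, j ≤ 2*s → IsFar r x (Wc j) U₀ E := by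
    intro j
    by_cases hj : j ≤ 2*s
    · obtain ⟨E, hE⟩ := exists_far (r := r) (x := x) (W := Wc j) (U := U₀) (fun v hv => by
        obtain ⟨z, hz, hvz⟩ := ((hmem v).1 hv).2.1
        exact ⟨z, hN j hj hz, hvz⟩)
      exact ⟨E, fun _ => hE⟩
    · exact ⟨fun _ => 0, fun h => absurd h hj⟩
  have hT : ∀ j, ∃ T : V → ℕ, j ≤ 2*s → IsFar (rev r) x' (Wc j) U₀ T := by
    intro j
    by_cases hj : j ≤ 2*s
    · obtain ⟨E, hE⟩ := exists_far (r := rev r) (x := x') (W := Wc j) (U := U₀) (fun v hv => by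
        obtain ⟨z, hz, hvz⟩ := ((hmem v).1 hv).2.2
        exact ⟨z, hN j hj hz, hvz⟩)
      exact ⟨E, fun _ => hE⟩
    · exact ⟨fun _ => 0, fun h => absurd h hj⟩
  choose E hE using hE
  choose T hT using hT
  -- the shells
  have shell : ∀ v ∈ U₀, ∀ j < 2*s, ∃ Z : Finset V, Z.card = t ∧
      ∀ z ∈ Z, z ∈ W ∧ r v z ∧ E (j+1) v ≤ x z ∧ x z ≤ E j v := by
    intro v hv j hj
    obtain ⟨⟨w, hw, hvw, hxw⟩, -⟩ := hE (j+1) (by omega) v hv
    obtain ⟨⟨Z, hZ, hZ2⟩, -⟩ := (hR j hj).2 v (hN (j+1) (by omega) ((hmem v).1 hv).1) w hw hvw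
    refine ⟨Z, hZ, fun z hz => ?_⟩
    obtain ⟨h1, h2, h3⟩ := hZ2 z hz
    exact ⟨hW j (by omega) h1, h2, hxw ▸ h3, (hE j (by omega) v hv).2 z h1 h2⟩
  have shell' : ∀ v ∈ U₀, ∀ j < 2*s, ∃ Z : Finset V, Z.card = t ∧
      ∀ z ∈ Z, z ∈ W ∧ rev r v z ∧ T (j+1) v ≤ x' z ∧ x' z ≤ T j v := by
    intro v hv j hj
    obtain ⟨⟨w, hw, hvw, hxw⟩, -⟩ := hT (j+1) (by omega) v hv
    obtain ⟨-, ⟨Z, hZ, hZ2⟩⟩ := (hR j hj).2 w hw v (hN (j+1) (by omega) ((hmem v).1 hv).1) hvw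
    refine ⟨Z, hZ, fun z hz => ?_⟩
    obtain ⟨h1, h2, h3⟩ := hZ2 z hz
    refine ⟨hW j (by omega) h1, h2, ?_, (hT j (by omega) v hv).2 z h1 h2⟩
    rw [← hxw, hx', hx']
    omega
  obtain ⟨sig, J, hsig, hJ, hsg⟩ := signature hs ht hUp hUW hx E shell
  obtain ⟨sig', J', hsig', hJ', hsg'⟩ := signature hs ht hDn hUW hxm T shell'
  refine ColOn.classes sig (fun v _ => hsig v) fun i _ => ?_
  refine ColOn.classes sig' (fun v _ => hsig' v) fun i' _ => ?_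
  obtain ⟨j, hj1, hj2, hjA, hjB⟩ := exists_index hs (J i) (J' i') (hJ i) (hJ' i')
  have hjN : j ≤ 2*s := hj2.le
  have hTle : ∀ v ∈ U₀, T j v ≤ 2^L - 1 := by
    intro v hv
    obtain ⟨⟨z, -, -, hxz⟩, -⟩ := hT j hjN v hv
    rw [← hxz, hx']
    omega
  refine scale_full (x := x) (E := E j) (S := fun v => 2^L - 1 - T j v) (L := L) hthin
    (hW j hjN) (fun v hv => hN j hjN ((hmem v).1 hv.1.1).1) hx hxL
    (fun v hv => hE j hjN v hv.1.1) ?_ ?_ ?_ ?_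
  · intro v hv
    obtain ⟨⟨z, hz, hzv, hxz⟩, h2⟩ := hT j hjN v hv.1.1
    have h3 := hxL z (hW j hjN hz)
    refine ⟨⟨z, hz, hzv, ?_⟩, fun u hu huv => ?_⟩
    · show x z = 2^L - 1 - T j v
      rw [← hxz, hx']
      omega
    · have h4 := h2 u hu huv
      have h5 := hxL u (hW j hjN hu)
      rw [hx'] at h4
      show 2^L - 1 - T j v ≤ x u
      omega
  · intro v hv w hw hvw
    exact hsg v hv.1.1 w hw.1.1 hvw (hv.1.2.trans hw.1.2.symm) j hj1 hj2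
      (by rw [hv.1.2]; exact hjA)
  · intro v hv w hw hvw
    have h1 := hsg' w hw.1.1 v hv.1.1 hvw (hw.2.trans hv.2.symm) j hj1 hj2
      (by rw [hw.2]; exact hjB)
    have h2 := hTle v hv.1.1
    show 2^L - 1 - T j v < 2^L - 1 - T j w
    omega
  · intro U' hU' y hy hyL
    exact hrec U' (fun v hv => hUW (hU' hv).1.1) y hy hyL

end Pool.Agent.Lib.MP_b0c2b5_co.LS
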